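import Pool.Agent.Lib.HS76.Roy

/-! Simultaneous diagonalisation of a positive definite and a Hermitian matrix, and the
pointwise inequalities that follow. -/

open scoped ComplexOrder MatrixOrder
open Matrix Finset

namespace Pool.Agent.Lib.HS76

variable {n : Type*} [Fintype n] [DecidableEq n] {G B : Matrix n n ℂ}

theorem simul_diag (hG : G.PosDef) (hB : B.IsHermitian) :
    ∃ (W : Matrix n n ℂ) (lam : n → ℝ), Wᴴ * G * W = 1 ∧
      Wᴴ * B * W = diagonal fun i => (lam i : ℂ) := by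
  obtain ⟨V, hV⟩ := psd_eq_mul hG.inv.posSemidef
  have hd : IsUnit G.det := (isUnit_iff_isUnit_det _).mp hG.isUnit
  have h1 : Vᴴ * G * V = 1 := by
    rw [mul_eq_one_comm, ← Matrix.mul_assoc, ← hV, nonsing_inv_mul _ hd]
  have hC : (Vᴴ * B * V).IsHermitian := isHermitian_conjTranspose_mul_mul V hB
  have h2 := hC.conjStarAlgAut_star_eigenvectorUnitary
  rw [Unitary.conjStarAlgAut_star_apply] at h2
  have h3 := Unitary.coe_star_mul_self hC.eigenvectorUnitary
  generalize hC.eigenvectorUnitary.1 = U at h2 h3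
  refine ⟨V * U, hC.eigenvalues, ?_, ?_⟩
  · rw [conjTranspose_mul]
    calc Uᴴ * Vᴴ * G * (V * U) = Uᴴ * (Vᴴ * G * V) * U := by simp only [Matrix.mul_assoc]
      _ = 1 := by rw [h1, Matrix.mul_one]; exact h3
  · rw [conjTranspose_mul]
    calc Uᴴ * Vᴴ * B * (V * U) = star U * (Vᴴ * B * V) * U := by
          simp only [Matrix.mul_assoc, star_eq_conjTranspose]
      _ = _ := h2

/-- The eigenvalues of `G⁻¹ * B` and what they compute. -/
structure Eig (G B : Matrix n n ℂ) (lam : n → ℝ) : Prop where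
  tr : (G⁻¹ * B).trace = ((∑ i, lam i : ℝ) : ℂ)
  tr2 : (G⁻¹ * B * (G⁻¹ * B)).trace = ((∑ i, lam i ^ 2 : ℝ) : ℂ)
  det : ∀ a s : ℂ, (a • G + s • B).det = G.det * ∏ i, (a + s * lam i)
  det1 : ∀ a s : ℂ, (a • (1 : Matrix n n ℂ) + s • (G⁻¹ * B)).det = ∏ i, (a + s * lam i)
  psd : ∀ a s : ℝ, ((a : ℂ) • G + (s : ℂ) • B).PosSemidef ↔ ∀ i, 0 ≤ a + s * lam i
  pd : ∀ a s : ℝ, ((a : ℂ) • G + (s : ℂ) • B).PosDef ↔ ∀ i, 0 < a + s * lam i
  idem : (∀ i, lam i = 0 ∨ lam i = 1) → G⁻¹ * B * (G⁻¹ * B) = G⁻¹ * B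
  trinv : (∀ i, lam i ≠ 0) → (B⁻¹ * G).trace = ((∑ i, (lam i)⁻¹ : ℝ) : ℂ)
  invpsd : (∀ i, lam i ≠ 0) → ∀ a s : ℝ, ((a : ℂ) • G⁻¹ + (s : ℂ) • B⁻¹).PosSemidef ↔
    ∀ i, 0 ≤ a + s * (lam i)⁻¹

theorem eig (hG : G.PosDef) (hB : B.IsHermitian) : ∃ lam : n → ℝ, Eig G B lam := by
  obtain ⟨W, lam, h1, h2⟩ := simul_diag hG hB
  set D : Matrix n n ℂ := diagonal fun i => (lam i : ℂ) with hD
  have hd : IsUnit G.det := (isUnit_iff_isUnit_det _).mp hG.isUnit
  have h3 : W * (Wᴴ * G) = 1 := mul_eq_one_comm.mp h1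
  have hinv : G⁻¹ = W * Wᴴ := inv_eq_left_inv (by rw [Matrix.mul_assoc, h3])
  have hW : IsUnit W := IsUnit.of_mul_eq_one _ h3
  have hP : G⁻¹ * B = W * D * (Wᴴ * G) := by
    rw [hinv, ← h2]
    calc W * Wᴴ * B = W * Wᴴ * B * (W * (Wᴴ * G)) := by rw [h3, Matrix.mul_one]
      _ = _ := by simp only [Matrix.mul_assoc]
  have hP2 : G⁻¹ * B * (G⁻¹ * B) = W * (D * D) * (Wᴴ * G) := by
    rw [hP]
    calc W * D * (Wᴴ * G) * (W * D * (Wᴴ * G)) = W * D * (Wᴴ * G * W) * D * (Wᴴ * G) := by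
          simp only [Matrix.mul_assoc]
      _ = _ := by rw [h1]; simp only [Matrix.mul_assoc, Matrix.one_mul]
  have htr : ∀ X : Matrix n n ℂ, (W * X * (Wᴴ * G)).trace = X.trace := fun X => by
    rw [trace_mul_cycle, h1, Matrix.one_mul]
  have hc : ∀ a s : ℂ, Wᴴ * (a • G + s • B) * W = diagonal fun i => a + s * (lam i : ℂ) := by
    intro a s
    rw [Matrix.mul_add, Matrix.add_mul, Matrix.mul_smul, Matrix.mul_smul, Matrix.smul_mul,
      Matrix.smul_mul, h1, h2, hD]
    ext i j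
    by_cases h : i = j <;> simp [h, one_apply]
  have hdW : Wᴴ.det * G.det * W.det = 1 := by rw [← det_mul, ← det_mul, h1, det_one]
  have hdet : ∀ a s : ℂ, (a • G + s • B).det = G.det * ∏ i, (a + s * lam i) := by
    intro a s
    have := congrArg Matrix.det (hc a s)
    rw [det_mul, det_mul, det_diagonal] at this
    rw [← this]
    linear_combination (-(a • G + s • B).det) * hdW
  have hB' : (∀ i, lam i ≠ 0) → B⁻¹ = W * (diagonal fun i => ((lam i : ℂ))⁻¹) * Wᴴ := by
      intro h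
      apply inv_eq_right_inv
      have h5 : G * W * Wᴴ = 1 := by
        rw [Matrix.mul_assoc, ← hinv, mul_nonsing_inv _ hd]
      calc B * (W * (diagonal fun i => ((lam i : ℂ))⁻¹) * Wᴴ)
          = G * W * Wᴴ * (B * (W * (diagonal fun i => ((lam i : ℂ))⁻¹) * Wᴴ)) := by
            rw [h5, Matrix.one_mul]
        _ = G * W * ((Wᴴ * B * W) * (diagonal fun i => ((lam i : ℂ))⁻¹)) * Wᴴ := by
            simp only [Matrix.mul_assoc]
        _ = 1 := by
            rw [h2, hD, diagonal_mul_diagonal]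
            have : (diagonal fun i => (lam i : ℂ) * ((lam i : ℂ))⁻¹) = (1 : Matrix n n ℂ) := by
              rw [← diagonal_one]
              congr 1
              funext i
              exact mul_inv_cancel₀ (by exact_mod_cast h i)
            rw [this, Matrix.mul_one, h5]
  refine ⟨lam, ?_, ?_, hdet, ?_, ?_, ?_, ?_, ?_, ?_⟩
  · rw [hP, htr, hD, trace_diagonal]; push_cast; rfl
  · rw [hP2, htr, hD, diagonal_mul_diagonal, trace_diagonal]; push_cast
    exact sum_congr rfl fun i _ => by ring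
  · intro a s
    have : G * (a • (1 : Matrix n n ℂ) + s • (G⁻¹ * B)) = a • G + s • B := by
      rw [Matrix.mul_add, Matrix.mul_smul, Matrix.mul_smul, Matrix.mul_one, ← Matrix.mul_assoc,
        mul_nonsing_inv _ hd, Matrix.one_mul]
    have h4 := hdet a s
    rw [← this, det_mul] at h4
    exact mul_left_cancel₀ hd.ne_zero h4
  · intro a s
    rw [← hW.posSemidef_star_left_conjugate_iff, star_eq_conjTranspose, hc,
      posSemidef_diagonal_iff]
    exact forall_congr' fun i => by norm_cast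
  · intro a s
    rw [← hW.posDef_star_left_conjugate_iff, star_eq_conjTranspose, hc, posDef_diagonal_iff]
    exact forall_congr' fun i => by norm_cast
  · intro h
    rw [hP2, hP, hD, diagonal_mul_diagonal]
    congr 3
    funext i
    rcases h i with h | h <;> simp [h]
  · intro h
    rw [hB' h, Matrix.mul_assoc, htr, trace_diagonal]; push_cast; rfl
  · intro h a s
    have : (a : ℂ) • G⁻¹ + (s : ℂ) • B⁻¹ =
        W * (diagonal fun i => (a : ℂ) + (s : ℂ) * ((lam i : ℂ))⁻¹) * star W := by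
      have e : (diagonal fun i => (a : ℂ) + (s : ℂ) * ((lam i : ℂ))⁻¹) =
          (a : ℂ) • (1 : Matrix n n ℂ) + (s : ℂ) • diagonal fun i => ((lam i : ℂ))⁻¹ := by
        ext i j
        by_cases h : i = j <;> simp [h, one_apply]
      rw [hB' h, hinv, e, star_eq_conjTranspose, Matrix.mul_add, Matrix.add_mul, Matrix.mul_smul,
        Matrix.mul_smul, Matrix.smul_mul, Matrix.smul_mul, Matrix.mul_one]
    rw [this, hW.posSemidef_star_right_conjugate_iff, posSemidef_diagonal_iff]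
    exact forall_congr' fun i => by norm_cast

namespace Eig

variable {lam : n → ℝ}

theorem nonneg (h : Eig G B lam) (hB : B.PosSemidef) (i : n) : 0 ≤ lam i := by
  simpa using (h.psd 0 1).mp (by simpa using hB) i

theorem pos (h : Eig G B lam) (hB : B.PosDef) (i : n) : 0 < lam i := by
  simpa using (h.pd 0 1).mp (by simpa using hB) i

theorem le_iff (h : Eig G B lam) (c : ℝ) : ((c : ℂ) • G - B).PosSemidef ↔ ∀ i, lam i ≤ c := by
  have := h.psd c (-1)
  simp only [Complex.ofReal_neg, Complex.ofReal_one, neg_smul, one_smul, neg_mul, one_mul,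
    ← sub_eq_add_neg, sub_nonneg] at this
  exact this

theorem ge_iff (h : Eig G B lam) (c : ℝ) : (B - (c : ℂ) • G).PosSemidef ↔ ∀ i, c ≤ lam i := by
  have := h.psd (-c) 1
  simp only [Complex.ofReal_neg, Complex.ofReal_one, neg_smul, one_smul, one_mul,
    neg_add_eq_sub, sub_nonneg] at this
  exact this

theorem det_eq (h : Eig G B lam) : B.det = G.det * ((∏ i, lam i : ℝ) : ℂ) := by
  simpa using h.det 0 1

theorem det_add (h : Eig G B lam) : (G + B).det = G.det * ((∏ i, (1 + lam i) : ℝ) : ℂ) := by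
  simpa using h.det 1 1

theorem tr_re (h : Eig G B lam) : (G⁻¹ * B).trace.re = ∑ i, lam i := by
  rw [h.tr, Complex.ofReal_re]

theorem tr2_re (h : Eig G B lam) : (G⁻¹ * B * (G⁻¹ * B)).trace.re = ∑ i, lam i ^ 2 := by
  rw [h.tr2, Complex.ofReal_re]

end Eig

theorem det_re_pos (hG : G.PosDef) : 0 < G.det.re := (Complex.lt_def.mp hG.det_pos).1

theorem det_eq_re (hG : G.PosSemidef) : G.det = (G.det.re : ℂ) :=
  Complex.ext rfl (by simpa using (Complex.le_def.mp hG.det_nonneg).2.symm)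

theorem tr_eq_re (hG : G.PosDef) (hB : B.IsHermitian) :
    (G⁻¹ * B).trace = ((G⁻¹ * B).trace.re : ℂ) := by
  obtain ⟨lam, h⟩ := eig hG hB
  rw [h.tr, Complex.ofReal_re]

theorem tr2_eq_re (hG : G.PosDef) (hB : B.IsHermitian) :
    (G⁻¹ * B * (G⁻¹ * B)).trace = ((G⁻¹ * B * (G⁻¹ * B)).trace.re : ℂ) := by
  obtain ⟨lam, h⟩ := eig hG hB
  rw [h.tr2, Complex.ofReal_re]

theorem tr_nonneg (hG : G.PosDef) (hB : B.PosSemidef) : 0 ≤ (G⁻¹ * B).trace.re := by
  obtain ⟨lam, h⟩ := eig hG hB.1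
  rw [h.tr_re]; exact sum_nonneg fun i _ => h.nonneg hB i

theorem tr_pos [Nonempty n] (hG : G.PosDef) (hB : B.PosDef) : 0 < (G⁻¹ * B).trace.re := by
  obtain ⟨lam, h⟩ := eig hG hB.1
  rw [h.tr_re]; exact sum_pos (fun i _ => h.pos hB i) univ_nonempty

/-- `B ≤ tr (G⁻¹ B) G`. -/
theorem le_tr_smul (hG : G.PosDef) (hB : B.PosSemidef) {c : ℝ} (hc : (G⁻¹ * B).trace.re ≤ c) :
    ((c : ℂ) • G - B).PosSemidef := by
  obtain ⟨lam, h⟩ := eig hG hB.1
  rw [h.le_iff]
  intro i
  rw [h.tr_re] at hc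
  exact (single_le_sum (fun j _ => h.nonneg hB j) (mem_univ i)).trans hc

/-- `B ≤ c G` bounds the trace. -/
theorem tr_le_of_le (hG : G.PosDef) (hB : B.IsHermitian) {c : ℝ}
    (hc : ((c : ℂ) • G - B).PosSemidef) : (G⁻¹ * B).trace.re ≤ Fintype.card n * c := by
  obtain ⟨lam, h⟩ := eig hG hB
  rw [h.tr_re]
  have := sum_le_card_nsmul univ lam c fun i _ => (h.le_iff c).mp hc i
  simpa using this

theorem tr_sq_le (hG : G.PosDef) (hB : B.IsHermitian) :
    (G⁻¹ * B).trace.re ^ 2 ≤ Fintype.card n * (G⁻¹ * B * (G⁻¹ * B)).trace.re := by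
  obtain ⟨lam, h⟩ := eig hG hB
  rw [h.tr_re, h.tr2_re]
  simpa using sq_sum_le_card_mul_sum_sq (s := univ) (f := lam)

theorem tr2_le_sq (hG : G.PosDef) (hB : B.PosSemidef) :
    (G⁻¹ * B * (G⁻¹ * B)).trace.re ≤ (G⁻¹ * B).trace.re ^ 2 := by
  obtain ⟨lam, h⟩ := eig hG hB.1
  rw [h.tr_re, h.tr2_re]
  exact sum_sq_le_sq_sum_of_nonneg fun i _ => h.nonneg hB i

theorem tr2_nonneg (hG : G.PosDef) (hB : B.IsHermitian) :
    0 ≤ (G⁻¹ * B * (G⁻¹ * B)).trace.re := by
  obtain ⟨lam, h⟩ := eig hG hB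
  rw [h.tr2_re]; exact sum_nonneg fun i _ => sq_nonneg _

omit [DecidableEq n] in
/-- The trace of a product of positive semidefinite matrices is nonnegative. -/
theorem tr_mul_nonneg {A C : Matrix n n ℂ} (hA : A.PosSemidef) (hC : C.PosSemidef) :
    0 ≤ (A * C).trace := by
  obtain ⟨W, rfl⟩ := psd_eq_mul hA
  rw [Matrix.mul_assoc, trace_mul_comm]
  exact (hC.conjTranspose_mul_mul_same W).trace_nonneg

omit [DecidableEq n] in
theorem tr_mul_mono {A C C' : Matrix n n ℂ} (hA : A.PosSemidef) (hC : (C' - C).PosSemidef) :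
    (A * C).trace.re ≤ (A * C').trace.re := by
  have := (Complex.le_def.mp (tr_mul_nonneg hA hC)).1
  rw [Matrix.mul_sub, trace_sub] at this
  simpa using this

/-- `B ≤ c G` gives `G⁻¹ ≤ c B⁻¹`. -/
theorem inv_le_of_le (hG : G.PosDef) (hB : B.PosDef) {c : ℝ}
    (hc : ((c : ℂ) • G - B).PosSemidef) : ((c : ℂ) • B⁻¹ - G⁻¹).PosSemidef := by
  obtain ⟨lam, h⟩ := eig hG hB.1
  have hp := h.pos hB
  have := (h.invpsd (fun i => (hp i).ne') (-1) c).mpr fun i => by
    have h1 := (h.le_iff c).mp hc i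
    have h2 : 1 ≤ c * (lam i)⁻¹ := by
      rw [← div_eq_mul_inv, le_div_iff₀ (hp i)]; linarith
    linarith
  simpa only [Complex.ofReal_neg, Complex.ofReal_one, neg_smul, one_smul, neg_add_eq_sub]
    using this

/-- `tr (G⁻¹ B) ≤ tr (G⁻¹ A) tr (A⁻¹ B)`. -/
theorem tr_le_mul {A : Matrix n n ℂ} (hG : G.PosDef) (hA : A.PosDef) (hB : B.PosSemidef) :
    (G⁻¹ * B).trace.re ≤ (G⁻¹ * A).trace.re * (A⁻¹ * B).trace.re := by
  have := tr_mul_mono hG.inv.posSemidef (le_tr_smul hA hB le_rfl)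
  rw [Matrix.mul_smul, trace_smul, smul_eq_mul, Complex.re_ofReal_mul] at this
  linarith

theorem one_add_sum_le_prod {ι : Type*} {s : Finset ι} {f : ι → ℝ} (h : ∀ i ∈ s, 0 ≤ f i) :
    1 + ∑ i ∈ s, f i ≤ ∏ i ∈ s, (1 + f i) := by
  classical
  induction s using Finset.induction_on with
  | empty => simp
  | insert c s hc ih =>
    rw [sum_insert hc, prod_insert hc]
    have h1 := ih fun i hi => h i (mem_insert_of_mem hi)
    have h2 := h c (mem_insert_self c s)
    have h3 : 0 ≤ ∑ i ∈ s, f i := sum_nonneg fun i hi => h i (mem_insert_of_mem hi)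
    nlinarith [mul_nonneg h2 h3, mul_le_mul_of_nonneg_left h1 h2]

/-- `det G (1 + tr (G⁻¹ B)) ≤ det (G + B)`. -/
theorem det_add_ge (hG : G.PosDef) (hB : B.PosSemidef) :
    G.det.re * (1 + (G⁻¹ * B).trace.re) ≤ (G + B).det.re := by
  obtain ⟨lam, h⟩ := eig hG hB.1
  rw [h.det_add, h.tr_re, Complex.re_mul_ofReal]
  exact mul_le_mul_of_nonneg_left (one_add_sum_le_prod fun i _ => h.nonneg hB i)
    (det_re_pos hG).le

/-- The determinant is monotone. -/
theorem det_mono (hG : G.PosDef) (hB : (B - G).PosSemidef) : G.det.re ≤ B.det.re := by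
  have := det_add_ge hG hB
  rw [add_sub_cancel] at this
  nlinarith [det_re_pos hG, tr_nonneg hG hB]

/-- Concavity of the logarithm of the determinant. -/
theorem log_det_le (hG : G.PosDef) (hB : B.PosDef) :
    Real.log B.det.re - Real.log G.det.re ≤ (G⁻¹ * B).trace.re - Fintype.card n := by
  obtain ⟨lam, h⟩ := eig hG hB.1
  have hp := h.pos hB
  rw [h.det_eq, h.tr_re, Complex.re_mul_ofReal, Real.log_mul (det_re_pos hG).ne'
    (prod_pos fun i _ => hp i).ne', Real.log_prod fun i _ => (hp i).ne']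
  have : ∑ i, Real.log (lam i) ≤ ∑ i, (lam i - 1) :=
    sum_le_sum fun i _ => Real.log_le_sub_one_of_pos (hp i)
  simp only [sum_sub_distrib, sum_const, card_univ, nsmul_eq_mul, mul_one] at this
  linarith

/-- `B ≤ c G` bounds the determinant. -/
theorem det_le_of_le (hG : G.PosDef) (hB : B.PosSemidef) {c : ℝ}
    (hc : ((c : ℂ) • G - B).PosSemidef) : B.det.re ≤ c ^ Fintype.card n * G.det.re := by
  obtain ⟨lam, h⟩ := eig hG hB.1
  rw [h.det_eq, Complex.re_mul_ofReal, mul_comm]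
  refine mul_le_mul_of_nonneg_right ?_ (det_re_pos hG).le
  have := prod_le_prod (s := univ) (fun i _ => h.nonneg hB i) fun i _ => (h.le_iff c).mp hc i
  simpa using this

/-- `c G ≤ B` bounds the determinant from below. -/
theorem le_det_of_le (hG : G.PosDef) (hB : B.IsHermitian) {c : ℝ} (h0 : 0 ≤ c)
    (hc : (B - (c : ℂ) • G).PosSemidef) : c ^ Fintype.card n * G.det.re ≤ B.det.re := by
  obtain ⟨lam, h⟩ := eig hG hB
  rw [h.det_eq, Complex.re_mul_ofReal, mul_comm]
  refine mul_le_mul_of_nonneg_left ?_ (det_re_pos hG).le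
  have := prod_le_prod (s := univ) (fun i _ => h0) fun i _ => (h.ge_iff c).mp hc i
  simpa using this

/-- A lower bound `c G ≤ B` and an upper bound `det B ≤ d det G` give an upper bound of `B`. -/
theorem le_of_det_le (hG : G.PosDef) (hB : B.IsHermitian) {c d : ℝ} (h0 : 0 < c)
    (hc : (B - (c : ℂ) • G).PosSemidef) (hd : B.det.re ≤ d * G.det.re) :
    (((d / c ^ (Fintype.card n - 1) : ℝ) : ℂ) • G - B).PosSemidef := by
  obtain ⟨lam, h⟩ := eig hG hB
  rw [h.le_iff]
  intro i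
  have hl := (h.ge_iff c).mp hc
  rw [h.det_eq, Complex.re_mul_ofReal, mul_comm] at hd
  have h1 := le_of_mul_le_mul_right hd (det_re_pos hG)
  rw [← mul_prod_erase univ lam (mem_univ i)] at h1
  have h2 : c ^ (Fintype.card n - 1) ≤ ∏ j ∈ univ.erase i, lam j := by
    have := prod_le_prod (s := univ.erase i) (fun j _ => h0.le) fun j _ => hl j
    simpa using this
  rw [le_div_iff₀ (pow_pos h0 _)]
  exact (mul_le_mul_of_nonneg_left h2 (h0.le.trans (hl i))).trans h1

/-- A selfadjoint endomorphism with `det (1 + s P) = (1 + s) ^ k` is a projection of rank `k`. -/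
theorem proj_of_det (hG : G.PosDef) {P : Matrix n n ℂ} (hP : (G * P).IsHermitian) {k : ℕ}
    (hk : ∀ s : ℝ, (1 + (s : ℂ) • P).det = (1 + (s : ℂ)) ^ k) : P * P = P ∧ P.trace = k := by
  have dG : IsUnit G.det := (isUnit_iff_isUnit_det _).mp hG.isUnit
  obtain ⟨lam, h⟩ := eig hG hP
  have e : G⁻¹ * (G * P) = P := by rw [← Matrix.mul_assoc, nonsing_inv_mul _ dG, Matrix.one_mul]
  have h1 : ∀ s : ℝ, ∏ i, (1 + s * lam i) = (1 + s) ^ k := fun s => by
    have := h.det1 1 s
    rw [e, one_smul, hk] at this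
    exact_mod_cast this.symm
  have h2 : ∀ i, lam i = 0 ∨ lam i = 1 := fun i => by
    by_cases h0 : lam i = 0
    · exact Or.inl h0
    · right
      have := h1 (-(lam i)⁻¹)
      rw [prod_eq_zero (mem_univ i) (by field_simp; ring)] at this
      have h3 := (pow_eq_zero_iff'.mp this.symm).1
      field_simp at h3
      linarith
  refine ⟨by simpa only [e] using h.idem h2, ?_⟩
  have h3 := h.tr
  rw [e] at h3
  rw [h3]
  have h4 : ∏ i, (1 + 1 * lam i) = 2 ^ (univ.filter fun i => lam i = 1).card := by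
    rw [← prod_const, prod_filter]
    exact prod_congr rfl fun i _ => by rcases h2 i with h | h <;> norm_num [h]
  have h5 : ∑ i, lam i = (univ.filter fun i => lam i = 1).card := by
    rw [card_filter]; push_cast
    exact sum_congr rfl fun i _ => by rcases h2 i with h | h <;> norm_num [h]
  rw [h1 1, one_add_one_eq_two] at h4
  rw [h5, ← pow_right_injective₀ (by norm_num) (by norm_num) h4]
  simp

end Pool.Agent.Lib.HS76
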