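import Pool.Agent.Lib.HS76.Diag

/-! Royden's inequality for families of matrices, and the scalar product of matrix valued
forms. -/

open scoped ComplexOrder MatrixOrder
open Matrix Finset

namespace Pool.Agent.Lib.HS76

section fam

variable {n : Type*} [Fintype n] {N : n → n → Matrix n n ℂ}

theorem q4_fam (N : n → n → Matrix n n ℂ) (a b v w : n → ℂ) :
    q4 (fun k l i j => N k l j i) a b v w =
      ∑ k, ∑ l, a k * star (b l) * (star w ⬝ᵥ (N k l) *ᵥ v) := by
  unfold q4
  refine sum_congr rfl fun k _ => sum_congr rfl fun l _ => ?_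
  simp only [dotProduct, mulVec, Pi.star_apply, mul_sum]
  rw [sum_comm]
  exact sum_congr rfl fun j _ => sum_congr rfl fun i _ => by ring

theorem q2_fam (N : n → n → Matrix n n ℂ) (A B : Matrix n n ℂ) :
    q2 (fun k l i j => N k l j i) A B = ∑ k, ∑ l, A k l * (B * N k l).trace := by
  unfold q2
  refine sum_congr rfl fun k _ => sum_congr rfl fun l _ => ?_
  simp only [trace, diag_apply, Matrix.mul_apply, mul_sum, mul_assoc]

/-- Royden's inequality for `N k l = H * Th k l`. -/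
theorem royden_fam (h13 : ∀ k l a b, N k l b a = N a l b k)
    (h24 : ∀ k l a b, N k l b a = N k b l a)
    (hH : ∀ v : n → ℂ, (∑ k, ∑ l, v k * star (v l) * (star v ⬝ᵥ (N k l) *ᵥ v)).re ≤ 0)
    {A : Matrix n n ℂ} (hA : A.PosSemidef) :
    (∑ k, ∑ l, A k l * (A * N k l).trace).re ≤ 0 := by
  rw [← q2_fam]
  exact royden_mat (fun k l i j => h13 k l i j) (fun k l i j => h24 k l i j)
    (fun v => by rw [q4_fam]; exact hH v) hA

/-- The equality case: the curvature vanishes on the image of a selfadjoint projection that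
commutes with it. -/
theorem flat_fam [DecidableEq n] {H P : Matrix n n ℂ} {Th : n → n → Matrix n n ℂ}
    (hHp : H.PosDef) (hPP : P * P = P) (hP : (H * P).IsHermitian)
    (hc : ∀ k l, Th k l * P = P * Th k l)
    (h13 : ∀ k l a b, (H * Th k l) b a = (H * Th a l) b k)
    (h24 : ∀ k l a b, (H * Th k l) b a = (H * Th k b) l a)
    (hh : ∀ k l, (H * Th k l)ᴴ = H * Th l k)
    (hH : ∀ v : n → ℂ, (∑ k, ∑ l, v k * star (v l) * (star v ⬝ᵥ (H * Th k l) *ᵥ v)).re ≤ 0)
    (h0 : 0 ≤ (∑ k, ∑ l, (P * H⁻¹) k l * (P * H⁻¹ * (H * Th k l)).trace).re) (k l : n) :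
    Th k l * P = 0 := by
  have hd : IsUnit H.det := (isUnit_iff_isUnit_det _).mp hHp.isUnit
  have e1 : Pᴴ * H = H * P := by rw [← hP.eq, conjTranspose_mul, hHp.1.eq]
  have e2 : P * H⁻¹ = P * H⁻¹ * Pᴴ := by
    have : H⁻¹ * Pᴴ = P * H⁻¹ := by
      calc H⁻¹ * Pᴴ = H⁻¹ * (Pᴴ * H) * H⁻¹ := by
            rw [Matrix.mul_assoc, Matrix.mul_assoc, mul_nonsing_inv _ hd, Matrix.mul_one]
        _ = P * H⁻¹ := by rw [e1, ← Matrix.mul_assoc, nonsing_inv_mul _ hd, Matrix.one_mul]
    rw [Matrix.mul_assoc, this, ← Matrix.mul_assoc, hPP]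
  have hA : (P * H⁻¹).PosSemidef := by
    rw [e2]; exact hHp.inv.posSemidef.mul_mul_conjTranspose_same P
  set R : n → n → n → n → ℂ := fun k l i j => (H * Th k l) j i with hR
  have r13 : ∀ k l i j, R k l i j = R i l k j := fun k l i j => h13 k l i j
  have r24 : ∀ k l i j, R k l i j = R k j i l := fun k l i j => h24 k l i j
  have rh : ∀ k l i j, star (R k l i j) = R l k j i := fun k l i j => by
    simp only [hR]
    rw [← hh k l, conjTranspose_apply]
  have rH : ∀ v, (q4 R v v v v).re ≤ 0 := fun v => by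
    rw [hR, q4_fam (fun k l => H * Th k l)]; exact hH v
  have z := royden_zero r13 r24 rH hA (by rw [hR, q2_fam (fun k l => H * Th k l)]; exact h0)
  have hk := (k4_q4 r13 r24).kill P.mulVecLin
    (fun v => by simp only [mulVecLin_apply, mulVec_mulVec, hPP])
    (fun x y v w => by
      simp only [mulVecLin_apply]
      rw [hR, q4_fam (fun k l => H * Th k l), q4_fam (fun k l => H * Th k l)]
      refine sum_congr rfl fun k _ => sum_congr rfl fun l _ => ?_
      rw [mulVec_mulVec, Matrix.mul_assoc, hc, ← Matrix.mul_assoc, ← e1, star_mulVec,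
        ← dotProduct_mulVec, mulVec_mulVec, Matrix.mul_assoc])
    (fun v => by
      have := z (H *ᵥ v)
      rw [mulVec_mulVec, Matrix.mul_assoc, nonsing_inv_mul _ hd, Matrix.mul_one] at this
      exact q4_eq_zero_of_re rh this)
  have : H * (Th k l * P) = 0 := by
    ext j i
    have h1 := hk (Pi.single k 1) (Pi.single l 1) (Pi.single i 1) (Pi.single j 1)
    rw [hR, q4_fam (fun k l => H * Th k l), sum_eq_single k (by
      intro b _ hb; simp [Pi.single_eq_of_ne hb]) (by simp), sum_eq_single l (by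
      intro b _ hb; simp [Pi.single_eq_of_ne hb]) (by simp), mulVecLin_apply, mulVec_mulVec,
      Matrix.mul_assoc] at h1
    simpa [← Pi.single_star] using h1
  calc Th k l * P = H⁻¹ * (H * (Th k l * P)) := by
        rw [← Matrix.mul_assoc, nonsing_inv_mul _ hd, Matrix.one_mul]
    _ = 0 := by rw [this, Matrix.mul_zero]

end fam

section ip

variable {m n : Type*} [Fintype m] [Fintype n]

/-- The scalar product of two matrix valued forms. -/
def ip3 (C : Matrix m m ℂ) (A H : Matrix n n ℂ) (T U : m → Matrix n n ℂ) : ℂ :=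
  ∑ k, ∑ l, C k l * (A * (U l)ᴴ * H * T k).trace

theorem ip3_cyc (C : Matrix m m ℂ) (A H : Matrix n n ℂ) (T U : m → Matrix n n ℂ) :
    ip3 C A H T U = ∑ k, ∑ l, C k l * (H * T k * A * (U l)ᴴ).trace := by
  refine sum_congr rfl fun k _ => sum_congr rfl fun l _ => ?_
  rw [Matrix.mul_assoc (A * _), trace_mul_comm]
  simp only [Matrix.mul_assoc]

/-- The vector whose Euclidean scalar products give `ip3`. -/
def vec3 (W : Matrix m m ℂ) (V Y : Matrix n n ℂ) (T : m → Matrix n n ℂ) :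
    EuclideanSpace ℂ (m × n × n) :=
  WithLp.toLp 2 fun p => (Yᴴ * (∑ k, W k p.1 • T k) * V) p.2.1 p.2.2

theorem trace_conj_mul (X Z : Matrix n n ℂ) :
    (Zᴴ * X).trace = ∑ i, ∑ j, X i j * star (Z i j) := by
  simp only [trace, diag_apply, Matrix.mul_apply, conjTranspose_apply]
  rw [sum_comm]
  exact sum_congr rfl fun i _ => sum_congr rfl fun j _ => mul_comm _ _

theorem ip3_eq_inner (W : Matrix m m ℂ) (V Y : Matrix n n ℂ) (T U : m → Matrix n n ℂ) :
    ip3 (W * Wᴴ) (V * Vᴴ) (Y * Yᴴ) T U = inner ℂ (vec3 W V Y U) (vec3 W V Y T) := by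
  unfold vec3
  rw [EuclideanSpace.inner_toLp_toLp]
  simp only [dotProduct, Pi.star_apply, Fintype.sum_prod_type, ← trace_conj_mul]
  have e : ∀ a, ((Yᴴ * (∑ k, W k a • U k) * V)ᴴ * (Yᴴ * (∑ k, W k a • T k) * V)).trace =
      ∑ k, ∑ l, W k a * star (W l a) * (V * Vᴴ * (U l)ᴴ * (Y * Yᴴ) * T k).trace := by
    intro a
    rw [← Matrix.mul_assoc, trace_mul_comm]
    simp only [conjTranspose_mul, conjTranspose_conjTranspose, conjTranspose_sum,
      conjTranspose_smul, Matrix.mul_sum, Matrix.sum_mul, Matrix.mul_smul, Matrix.smul_mul,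
      trace_sum, trace_smul, smul_eq_mul, Matrix.mul_assoc, smul_sum, mul_assoc]
  simp only [e, ip3, Matrix.mul_apply (M := W), conjTranspose_apply, sum_mul]
  symm
  rw [sum_comm]
  exact sum_congr rfl fun k _ => sum_comm

variable {C C' : Matrix m m ℂ} {A A' H H' : Matrix n n ℂ}

theorem ip3_nonneg (hC : C.PosSemidef) (hA : A.PosSemidef) (hH : H.PosSemidef)
    (T : m → Matrix n n ℂ) : 0 ≤ (ip3 C A H T T).re := by
  obtain ⟨W, rfl⟩ := psd_eq_mul hC
  obtain ⟨V, rfl⟩ := psd_eq_mul hA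
  obtain ⟨Y, rfl⟩ := psd_eq_mul hH
  rw [ip3_eq_inner]
  exact inner_self_nonneg (𝕜 := ℂ)

theorem ip3_self_eq_re (hC : C.PosSemidef) (hA : A.PosSemidef) (hH : H.PosSemidef)
    (T : m → Matrix n n ℂ) : ip3 C A H T T = ((ip3 C A H T T).re : ℂ) := by
  obtain ⟨W, rfl⟩ := psd_eq_mul hC
  obtain ⟨V, rfl⟩ := psd_eq_mul hA
  obtain ⟨Y, rfl⟩ := psd_eq_mul hH
  rw [ip3_eq_inner]
  exact (inner_self_ofReal_re (𝕜 := ℂ) _).symm

theorem ip3_star (hC : C.PosSemidef) (hA : A.PosSemidef) (hH : H.PosSemidef)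
    (T U : m → Matrix n n ℂ) : star (ip3 C A H T U) = ip3 C A H U T := by
  obtain ⟨W, rfl⟩ := psd_eq_mul hC
  obtain ⟨V, rfl⟩ := psd_eq_mul hA
  obtain ⟨Y, rfl⟩ := psd_eq_mul hH
  rw [ip3_eq_inner, ip3_eq_inner]
  exact inner_conj_symm (𝕜 := ℂ) _ _

/-- Cauchy-Schwarz for `ip3`. -/
theorem ip3_cs (hC : C.PosSemidef) (hA : A.PosSemidef) (hH : H.PosSemidef)
    (T U : m → Matrix n n ℂ) :
    ‖ip3 C A H T U‖ ^ 2 ≤ (ip3 C A H T T).re * (ip3 C A H U U).re := by
  obtain ⟨W, rfl⟩ := psd_eq_mul hC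
  obtain ⟨V, rfl⟩ := psd_eq_mul hA
  obtain ⟨Y, rfl⟩ := psd_eq_mul hH
  rw [ip3_eq_inner, ip3_eq_inner, ip3_eq_inner]
  have h1 := inner_self_eq_norm_sq (𝕜 := ℂ) (vec3 W V Y T)
  have h2 := inner_self_eq_norm_sq (𝕜 := ℂ) (vec3 W V Y U)
  simp only [RCLike.re_to_complex] at h1 h2
  rw [h1, h2, ← mul_pow, mul_comm]
  exact pow_le_pow_left₀ (norm_nonneg _) (norm_inner_le_norm _ _) 2

theorem ip3_sub1 (T U : m → Matrix n n ℂ) :
    ip3 (C' - C) A H T U = ip3 C' A H T U - ip3 C A H T U := by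
  simp only [ip3, Matrix.sub_apply, sub_mul, sum_sub_distrib]

theorem ip3_sub2 (T U : m → Matrix n n ℂ) :
    ip3 C (A' - A) H T U = ip3 C A' H T U - ip3 C A H T U := by
  simp only [ip3, Matrix.sub_mul, trace_sub, mul_sub, sum_sub_distrib]

theorem ip3_sub3 (T U : m → Matrix n n ℂ) :
    ip3 C A (H' - H) T U = ip3 C A H' T U - ip3 C A H T U := by
  simp only [ip3, Matrix.sub_mul, Matrix.mul_sub, trace_sub, mul_sub, sum_sub_distrib]

theorem ip3_smul (a b c : ℂ) (T U : m → Matrix n n ℂ) :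
    ip3 (a • C) (b • A) (c • H) T U = a * b * c * ip3 C A H T U := by
  simp only [ip3, Matrix.smul_apply, Matrix.smul_mul, Matrix.mul_smul, trace_smul, smul_eq_mul,
    mul_sum]
  exact sum_congr rfl fun k _ => sum_congr rfl fun l _ => by ring

/-- `ip3` is monotone in the three metrics. -/
theorem ip3_mono (hC : C.PosSemidef) (hA : A.PosSemidef) (hH : H.PosSemidef)
    (h1 : (C' - C).PosSemidef) (h2 : (A' - A).PosSemidef) (h3 : (H' - H).PosSemidef)
    (T : m → Matrix n n ℂ) : (ip3 C A H T T).re ≤ (ip3 C' A' H' T T).re := by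
  have hC' : C'.PosSemidef := by simpa using h1.add hC
  have hA' : A'.PosSemidef := by simpa using h2.add hA
  have a1 := ip3_nonneg h1 hA hH T
  have a2 := ip3_nonneg hC' h2 hH T
  have a3 := ip3_nonneg hC' hA' h3 T
  rw [ip3_sub1, Complex.sub_re] at a1
  rw [ip3_sub2, Complex.sub_re] at a2
  rw [ip3_sub3, Complex.sub_re] at a3
  linarith

/-- `ip3` is monotone in the three metrics, with constants. -/
theorem ip3_le (hC : C.PosSemidef) (hA : A.PosSemidef) (hH : H.PosSemidef) {a b c : ℝ}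
    (h1 : ((a : ℂ) • C' - C).PosSemidef) (h2 : ((b : ℂ) • A' - A).PosSemidef)
    (h3 : ((c : ℂ) • H' - H).PosSemidef) (T : m → Matrix n n ℂ) :
    (ip3 C A H T T).re ≤ a * b * c * (ip3 C' A' H' T T).re := by
  have := ip3_mono hC hA hH h1 h2 h3 T
  rwa [ip3_smul, ← Complex.ofReal_mul, ← Complex.ofReal_mul, Complex.re_ofReal_mul] at this

theorem ip3_one [DecidableEq m] [DecidableEq n] (T : m → Matrix n n ℂ) :
    (ip3 1 1 1 T T).re = ∑ k, ∑ i, ∑ j, ‖T k i j‖ ^ 2 := by
  simp only [ip3, one_apply, ite_mul, one_mul, zero_mul, sum_ite_eq, mem_univ, if_true,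
    Matrix.mul_one, trace_conj_mul, Complex.re_sum, Complex.star_def, Complex.mul_conj,
    Complex.ofReal_re, Complex.normSq_eq_norm_sq]

theorem entry_le_ip3 [DecidableEq m] [DecidableEq n] (T : m → Matrix n n ℂ) (k : m) (i j : n) :
    ‖T k i j‖ ^ 2 ≤ (ip3 1 1 1 T T).re := by
  rw [ip3_one]
  refine le_trans ?_ (single_le_sum (f := fun k => ∑ i, ∑ j, ‖T k i j‖ ^ 2)
    (fun _ _ => by positivity) (mem_univ k))
  refine le_trans ?_ (single_le_sum (f := fun i => ∑ j, ‖T k i j‖ ^ 2)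
    (fun _ _ => by positivity) (mem_univ i))
  exact single_le_sum (f := fun j => ‖T k i j‖ ^ 2) (fun _ _ => by positivity) (mem_univ j)

/-- Cauchy-Schwarz for the trace form. -/
theorem trace_cs (hA : A.PosSemidef) (hH : H.PosSemidef) (X Z : Matrix n n ℂ) :
    ‖(A * Zᴴ * H * X).trace‖ ^ 2 ≤ (A * Xᴴ * H * X).trace.re * (A * Zᴴ * H * Z).trace.re := by
  have := ip3_cs (m := Unit) (C := 1) PosSemidef.one hA hH (fun _ => X) fun _ => Z
  simpa [ip3] using this

/-- The gradient of `S = tr (A H)` is bounded by `S` times the energy. -/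
theorem grad_le (hC : C.PosSemidef) (hA : A.PosSemidef) (hH : H.PosSemidef)
    (D : m → Matrix n n ℂ) :
    (∑ k, ∑ l, C k l * (star (A * H * D l).trace * (A * H * D k).trace)).re ≤
      (A * H).trace.re * (ip3 C A H D D).re := by
  classical
  obtain ⟨W, rfl⟩ := psd_eq_mul hC
  have e1 : ∑ k, ∑ l, (W * Wᴴ) k l * (star (A * H * D l).trace * (A * H * D k).trace) =
      ∑ a, star (A * H * ∑ k, W k a • D k).trace * (A * H * ∑ k, W k a • D k).trace := by
    simp only [Matrix.mul_apply (M := W), conjTranspose_apply, sum_mul, Matrix.mul_sum,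
      Matrix.mul_smul, trace_sum, trace_smul, smul_eq_mul, star_sum, star_mul', mul_sum]
    symm
    rw [sum_comm]
    refine sum_congr rfl fun k _ => ?_
    rw [sum_comm]
    exact sum_congr rfl fun l _ => sum_congr rfl fun a _ => by ring
  have e2 : ip3 (W * Wᴴ) A H D D =
      ∑ a, (A * (∑ k, W k a • D k)ᴴ * H * ∑ k, W k a • D k).trace := by
    simp only [ip3, Matrix.mul_apply (M := W), conjTranspose_apply, sum_mul, Matrix.mul_sum,
      Matrix.sum_mul, conjTranspose_sum, conjTranspose_smul, Matrix.smul_mul,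
      Matrix.mul_smul, trace_sum, trace_smul, smul_eq_mul, smul_sum, mul_sum]
    symm
    rw [sum_comm]
    refine sum_congr rfl fun k _ => ?_
    rw [sum_comm]
    exact sum_congr rfl fun l _ => sum_congr rfl fun a _ => by ring
  rw [e1, e2, Complex.re_sum, Complex.re_sum, mul_sum]
  refine sum_le_sum fun a _ => ?_
  have := trace_cs hA hH (∑ k, W k a • D k) 1
  simp only [conjTranspose_one, Matrix.mul_one] at this
  rw [Complex.star_def, Complex.conj_mul', ← Complex.ofReal_pow, Complex.ofReal_re, mul_comm]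
  exact this

end ip

section more

variable {n : Type*} [Fintype n] [DecidableEq n] {G B : Matrix n n ℂ}

/-- `B ≤ c G` gives `G⁻¹ B G⁻¹ ≤ c G⁻¹`. -/
theorem conj_inv_le (hG : G.PosDef) {c : ℝ} (hc : ((c : ℂ) • G - B).PosSemidef) :
    ((c : ℂ) • G⁻¹ - G⁻¹ * B * G⁻¹).PosSemidef := by
  have hd : IsUnit G.det := (isUnit_iff_isUnit_det _).mp hG.isUnit
  have := hc.mul_mul_conjTranspose_same G⁻¹
  rwa [hG.inv.1.eq, Matrix.mul_sub, Matrix.sub_mul, Matrix.mul_smul, nonsing_inv_mul _ hd,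
    Matrix.smul_mul, Matrix.one_mul] at this

theorem conj_inv_psd (hG : G.PosDef) (hB : B.PosSemidef) : (G⁻¹ * B * G⁻¹).PosSemidef := by
  have := hB.mul_mul_conjTranspose_same G⁻¹
  rwa [hG.inv.1.eq] at this

omit [DecidableEq n] in
/-- The entries of a positive semidefinite matrix are bounded by its trace. -/
theorem entry_le_trace (hB : B.PosSemidef) (i j : n) : ‖B i j‖ ≤ B.trace.re := by
  classical
  have h1 := psd_cs hB (Pi.single i 1) (Pi.single j 1)
  have e : ∀ i j, star (Pi.single i (1 : ℂ) : n → ℂ) ⬝ᵥ (B *ᵥ Pi.single j 1) = B i j := by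
    intro i j; simp [← Pi.single_star]
  rw [e, e, e] at h1
  have d0 : ∀ i, 0 ≤ (B i i).re := fun i => (Complex.le_def.mp (hB.diag_nonneg (i := i))).1
  have d1 : ∀ i, (B i i).re ≤ B.trace.re := fun i => by
    rw [trace, Complex.re_sum]
    exact single_le_sum (f := fun i => (B i i).re) (fun i _ => d0 i) (mem_univ i)
  refine (abs_le_of_sq_le_sq' (h1.trans ?_) ((d0 i).trans (d1 i))).2
  rw [sq]
  exact mul_le_mul (d1 i) (d1 j) (d0 j) ((d0 i).trans (d1 i))

omit [DecidableEq n] in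
/-- A Hermitian matrix with entries bounded by `c` is bounded by `n c`. -/
theorem le_of_entry [DecidableEq n] (hB : B.IsHermitian) {c : ℝ} (hc : ∀ i j, ‖B i j‖ ≤ c) :
    (((Fintype.card n * c : ℝ) : ℂ) • (1 : Matrix n n ℂ) - B).PosSemidef := by
  obtain ⟨lam, h⟩ := eig (G := 1) PosDef.one hB
  rw [h.le_iff]
  intro i
  have c0 : 0 ≤ c := (norm_nonneg _).trans (hc i i)
  have h1 := h.tr2_re
  rw [inv_one, Matrix.one_mul] at h1
  have h2 : (B * B).trace.re ≤ (Fintype.card n * c) ^ 2 := by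
    nth_rewrite 1 [← hB.eq]
    rw [trace_conj_mul]
    simp only [Complex.re_sum, Complex.star_def, Complex.mul_conj, Complex.ofReal_re,
      Complex.normSq_eq_norm_sq]
    calc ∑ i, ∑ j, ‖B i j‖ ^ 2 ≤ ∑ _i : n, ∑ _j : n, c ^ 2 :=
          sum_le_sum fun i _ => sum_le_sum fun j _ => pow_le_pow_left₀ (norm_nonneg _) (hc i j) 2
      _ = _ := by simp only [sum_const, card_univ, nsmul_eq_mul]; ring
  have h3 : lam i ^ 2 ≤ ∑ i, lam i ^ 2 :=
    single_le_sum (f := fun i => lam i ^ 2) (fun _ _ => sq_nonneg _) (mem_univ i)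
  exact (abs_le_of_sq_le_sq' (by linarith) (by positivity)).2

end more

end Pool.Agent.Lib.HS76
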