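import Pool.Agent.Lib.HS76.Pt

/-! Moments: the first two elementary symmetric functions are fixed linear combinations of values
of the characteristic polynomial; order of vanishing of a positive polynomial. -/

open scoped ComplexOrder MatrixOrder Topology
open Matrix Finset Polynomial Filter

namespace Pool.Agent.Lib.HS76

theorem rsm {m n : Type*} (c : ℝ) (A : Matrix m n ℂ) : c • A = (c : ℂ) • A := by
  ext i j; simp

theorem coeff_prod_lin {ι : Type*} (lam : ι → ℝ) (t : Finset ι) :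
    (∏ i ∈ t, (1 + C (lam i) * X : ℝ[X])).coeff 0 = 1 ∧
    (∏ i ∈ t, (1 + C (lam i) * X : ℝ[X])).coeff 1 = ∑ i ∈ t, lam i ∧
    2 * (∏ i ∈ t, (1 + C (lam i) * X : ℝ[X])).coeff 2 =
      (∑ i ∈ t, lam i) ^ 2 - ∑ i ∈ t, lam i ^ 2 := by
  classical
  induction t using Finset.induction_on with
  | empty => simp [coeff_one]
  | insert c t hc ih =>
    obtain ⟨h0, h1, h2⟩ := ih
    rw [prod_insert hc, sum_insert hc, sum_insert hc, add_mul, one_mul, mul_assoc]
    have e1 : ∀ p : ℝ[X], (X * p).coeff 1 = p.coeff 0 := fun p => coeff_X_mul p 0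
    have e2 : ∀ p : ℝ[X], (X * p).coeff 2 = p.coeff 1 := fun p => coeff_X_mul p 1
    simp only [coeff_add, coeff_C_mul, e1, e2, coeff_X_mul_zero, h0, h1]
    refine ⟨by ring, by ring, by linear_combination h2⟩

/-- Interpolation at the nodes `1, ..., N + 1`. -/
theorem interp (N : ℕ) : ∃ L : Fin (N + 1) → ℝ[X], (∀ a, (L a).natDegree ≤ N) ∧
    ∀ p : ℝ[X], p.natDegree ≤ N → p = ∑ a : Fin (N + 1), C (p.eval ((a : ℝ) + 1)) * L a := by
  have hv : Set.InjOn (fun a : Fin (N + 1) => (a : ℝ) + 1) (univ : Finset (Fin (N + 1))) := by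
    intro a _ b _ h
    exact Fin.ext (by exact_mod_cast add_right_cancel h)
  refine ⟨fun a => Lagrange.basis univ (fun a : Fin (N + 1) => (a : ℝ) + 1) a, fun a => ?_,
    fun p hp => ?_⟩
  · rw [Lagrange.natDegree_basis hv (mem_univ a)]; simp
  · rw [← Lagrange.interpolate_apply]
    refine Lagrange.eq_interpolate hv ?_
    refine lt_of_le_of_lt (degree_le_of_natDegree_le hp) ?_
    simp only [card_univ, Fintype.card_fin]
    exact_mod_cast Nat.lt_succ_self N

theorem natDegree_prod_lin {ι : Type*} [Fintype ι] (q : ι → ℝ[X]) (hq : ∀ i, (q i).natDegree ≤ 1) :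
    (∏ i, q i).natDegree ≤ Fintype.card ι := by
  refine (natDegree_prod_le _ _).trans ?_
  simpa using sum_le_card_nsmul univ (fun i => (q i).natDegree) 1 fun i _ => hq i

/-- The first two moments are fixed combinations of the values `∏ (1 + s λ)`. -/
theorem nodes (N : ℕ) : ∃ α β : Fin (N + 1) → ℝ, ∀ (ι : Type) [Fintype ι] (lam : ι → ℝ),
    Fintype.card ι ≤ N → ∑ i, lam i = ∑ a, α a * ∏ i, (1 + ((a : ℝ) + 1) * lam i) ∧
      (∑ i, lam i) ^ 2 - ∑ i, lam i ^ 2 = ∑ a, β a * ∏ i, (1 + ((a : ℝ) + 1) * lam i) := by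
  obtain ⟨L, -, hL⟩ := interp N
  refine ⟨fun a => (L a).coeff 1, fun a => 2 * (L a).coeff 2, fun ι _ lam hc => ?_⟩
  have hd : (∏ i, (1 + C (lam i) * X : ℝ[X])).natDegree ≤ N :=
    (natDegree_prod_lin _ fun i => by compute_degree).trans hc
  have h := hL _ hd
  obtain ⟨-, h1, h2⟩ := coeff_prod_lin lam univ
  have ev : ∀ s : ℝ, (∏ i, (1 + C (lam i) * X : ℝ[X])).eval s = ∏ i, (1 + s * lam i) := by
    intro s
    rw [eval_prod]
    exact prod_congr rfl fun i _ => by
      rw [eval_add, eval_one, eval_mul, eval_C, eval_X, mul_comm]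
  simp only [ev] at h
  rw [← h2, ← h1, h]
  simp only [finsetSum_coeff, coeff_C_mul, mul_sum]
  exact ⟨sum_congr rfl fun a _ => by ring, sum_congr rfl fun a _ => by ring⟩

/-- The matrix form of `nodes`, with the values for a projection of rank `k`. -/
theorem nodes_mat (n : ℕ) : ∃ α β : Fin (n + 1) → ℝ,
    (∀ G B : Matrix (Fin n) (Fin n) ℂ, G.PosDef → B.IsHermitian →
      (G⁻¹ * B).trace.re = ∑ a, α a * ((G + ((a : ℝ) + 1) • B).det / G.det).re ∧
      (G⁻¹ * B).trace.re ^ 2 - (G⁻¹ * B * G⁻¹ * B).trace.re =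
        ∑ a, β a * ((G + ((a : ℝ) + 1) • B).det / G.det).re) ∧
    ∀ k : ℕ, k ≤ n → (k : ℝ) = ∑ a, α a * (1 + ((a : ℝ) + 1)) ^ k ∧
      (k : ℝ) ^ 2 - k = ∑ a, β a * (1 + ((a : ℝ) + 1)) ^ k := by
  obtain ⟨α, β, h⟩ := nodes n
  refine ⟨α, β, fun G B hG hB => ?_, fun k hk => ?_⟩
  · obtain ⟨lam, e⟩ := eig hG hB
    have hd : G.det ≠ 0 := hG.det_pos.ne'
    have e1 : ∀ s : ℝ, ((G + s • B).det / G.det).re = ∏ i, (1 + s * lam i) := fun s => by
      have := e.det 1 s
      rw [one_smul] at this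
      rw [rsm, this, mul_div_cancel_left₀ _ hd]
      norm_cast
    simp only [e1, Matrix.mul_assoc (G⁻¹ * B), e.tr_re, e.tr2_re]
    exact h (Fin n) lam (by simp)
  · simpa using h (Fin k) (fun _ => 1) (by simpa using hk)

/-- `ε ↦ det (ε H + T) / det H` is a polynomial given by its values at fixed nodes. -/
theorem interp_mat (n : ℕ) : ∃ L : Fin (n + 1) → ℝ[X], (∀ a, (L a).natDegree ≤ n) ∧
    ∀ H T : Matrix (Fin n) (Fin n) ℂ, H.PosDef → T.IsHermitian → ∀ ε : ℝ,
      ((ε • H + T).det / H.det).re =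
        ∑ a, (L a).eval ε * ((((a : ℝ) + 1) • H + T).det / H.det).re := by
  obtain ⟨L, hL, h⟩ := interp n
  refine ⟨L, hL, fun H T hH hT ε => ?_⟩
  obtain ⟨lam, e⟩ := eig hH hT
  have hd : H.det ≠ 0 := hH.det_pos.ne'
  have e1 : ∀ s : ℝ, ((s • H + T).det / H.det).re = ∏ i, (s + lam i) := fun s => by
    have := e.det s 1
    rw [one_smul] at this
    rw [rsm, this, mul_div_cancel_left₀ _ hd]
    simp only [one_mul]
    norm_cast
  have hdeg : (∏ i, (X + C (lam i) : ℝ[X])).natDegree ≤ n := by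
    simpa using natDegree_prod_lin (fun i => (X + C (lam i) : ℝ[X])) fun i => by compute_degree
  have := congrArg (eval ε) (h _ hdeg)
  simp only [eval_prod, eval_add, eval_X, eval_C, eval_finsetSum, eval_mul] at this
  simp only [e1, this]
  exact sum_congr rfl fun a _ => mul_comm _ _

/-- The order of vanishing at zero of a polynomial that is positive on the positive axis. -/
theorem ord_exists (V : ℝ[X]) (hV : ∀ ε : ℝ, 0 < ε → 0 < V.eval ε) :
    ∃ k ≤ V.natDegree, ∃ c : ℝ, 0 < c ∧ Tendsto (fun ε => V.eval ε / ε ^ k) (𝓝[>] 0) (𝓝 c) := by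
  have h0 : V ≠ 0 := fun h => by simpa [h] using hV 1 one_pos
  obtain ⟨q, hq, hn⟩ := exists_eq_pow_rootMultiplicity_mul_and_not_dvd V h0 0
  set k := rootMultiplicity 0 V
  simp only [map_zero, sub_zero] at hq hn
  have hq0 : q ≠ 0 := fun h => hn (h ▸ dvd_zero _)
  have hk : k ≤ V.natDegree := by
    rw [hq, natDegree_X_pow_mul k hq0]; omega
  have ht : Tendsto (fun ε => q.eval ε) (𝓝[>] 0) (𝓝 (q.eval 0)) :=
    (q.continuous.tendsto 0).mono_left nhdsWithin_le_nhds
  have he : ∀ ε : ℝ, 0 < ε → q.eval ε = V.eval ε / ε ^ k := fun ε hε => by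
    conv_rhs => rw [hq]
    simp only [eval_mul, eval_pow, eval_X]
    field_simp
  have hge : 0 ≤ q.eval 0 := ge_of_tendsto ht (by
    filter_upwards [self_mem_nhdsWithin] with ε hε
    rw [he ε hε]; exact (div_pos (hV ε hε) (pow_pos hε _)).le)
  have hne : q.eval 0 ≠ 0 := fun h => hn (by rwa [X_dvd_iff, coeff_zero_eq_eval_zero])
  refine ⟨k, hk, q.eval 0, lt_of_le_of_ne hge hne.symm, ht.congr' ?_⟩
  filter_upwards [self_mem_nhdsWithin] with ε hε using he ε hε

/-- A function of order `k` at zero scales like the `k`-th power. -/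
theorem ord_ratio {V : ℝ → ℝ} {k : ℕ} {c : ℝ} (hc : 0 < c)
    (h : Tendsto (fun ε => V ε / ε ^ k) (𝓝[>] 0) (𝓝 c)) {t : ℝ} (ht : 0 < t) :
    Tendsto (fun ε => V (t * ε) / V ε) (𝓝[>] 0) (𝓝 (t ^ k)) := by
  have h1 : Tendsto (fun ε : ℝ => t * ε) (𝓝[>] 0) (𝓝[>] 0) := by
    refine tendsto_nhdsWithin_iff.mpr ⟨?_, ?_⟩
    · have : Tendsto (fun ε : ℝ => t * ε) (𝓝 0) (𝓝 (t * 0)) :=
        (continuous_const.mul continuous_id).tendsto 0
      rw [mul_zero] at this
      exact this.mono_left nhdsWithin_le_nhds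
    · filter_upwards [self_mem_nhdsWithin] with ε hε using mul_pos ht hε
  have h2 := ((h.comp h1).div h hc.ne').const_mul (t ^ k)
  rw [div_self hc.ne', mul_one] at h2
  refine h2.congr' ?_
  filter_upwards [self_mem_nhdsWithin] with ε hε
  have : (0 : ℝ) < ε := hε
  simp only [Function.comp, Pi.div_apply, mul_pow]
  by_cases hV : V ε = 0
  · simp [hV]
  · field_simp

/-- Two-sided bounds for a function of order `k` at zero. -/
theorem ord_bounds {V : ℝ → ℝ} {k : ℕ} {c : ℝ} (hc : 0 < c)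
    (h : Tendsto (fun ε => V ε / ε ^ k) (𝓝[>] 0) (𝓝 c)) :
    ∀ᶠ ε in 𝓝[>] (0 : ℝ), c / 2 * ε ^ k ≤ V ε ∧ V ε ≤ 2 * c * ε ^ k := by
  filter_upwards [self_mem_nhdsWithin, h.eventually (lt_mem_nhds (half_lt_self hc)),
    h.eventually (gt_mem_nhds (by linarith : c < 2 * c))] with ε hε h1 h2
  have hp : 0 < ε ^ k := pow_pos hε k
  exact ⟨((lt_div_iff₀ hp).mp h1).le, ((div_lt_iff₀ hp).mp h2).le⟩

end Pool.Agent.Lib.HS76
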