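import Mathlib

/-! Pointwise algebra of a curvature tensor of Kaehler type: Royden's inequality and
polarisation. -/

open scoped ComplexOrder MatrixOrder
open Matrix Finset

namespace Pool.Agent.Lib.HS76

/-- A form with four slots, linear in slots one and three, antilinear in slots two and four,
symmetric in each of these pairs. -/
structure K4 {V : Type*} [AddCommGroup V] [Module ℂ V] (f : V → V → V → V → ℂ) : Prop where
  add1 : ∀ x x' y v w, f (x + x') y v w = f x y v w + f x' y v w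
  smul1 : ∀ (c : ℂ) x y v w, f (c • x) y v w = c * f x y v w
  add2 : ∀ x y y' v w, f x (y + y') v w = f x y v w + f x y' v w
  smul2 : ∀ (c : ℂ) x y v w, f x (c • y) v w = star c * f x y v w
  s13 : ∀ x y v w, f x y v w = f v y x w
  s24 : ∀ x y v w, f x y v w = f x w v y

namespace K4

variable {V : Type*} [AddCommGroup V] [Module ℂ V] {f : V → V → V → V → ℂ}

theorem add3 (h : K4 f) (x y v v' w : V) : f x y (v + v') w = f x y v w + f x y v' w := by
  rw [h.s13 x y (v + v'), h.add1, h.s13 v, h.s13 v']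

theorem smul3 (h : K4 f) (c : ℂ) (x y v w : V) : f x y (c • v) w = c * f x y v w := by
  rw [h.s13 x y (c • v), h.smul1, h.s13 v]

theorem add4 (h : K4 f) (x y v w w' : V) : f x y v (w + w') = f x y v w + f x y v w' := by
  rw [h.s24 x y v (w + w'), h.add2, h.s24 x w, h.s24 x w']

theorem smul4 (h : K4 f) (c : ℂ) (x y v w : V) : f x y v (c • w) = star c * f x y v w := by
  rw [h.s24 x y v (c • w), h.smul2, h.s24 x w]

theorem zero1 (h : K4 f) (y v w : V) : f 0 y v w = 0 := by
  simpa using h.smul1 0 0 y v w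

theorem zero3 (h : K4 f) (x y w : V) : f x y 0 w = 0 := by
  rw [h.s13, h.zero1]

theorem zero2 (h : K4 f) (x v w : V) : f x 0 v w = 0 := by
  simpa using h.smul2 0 x 0 v w

theorem zero4 (h : K4 f) (x y v : V) : f x y v 0 = 0 := by
  rw [h.s24, h.zero2]

theorem swap (h : K4 f) (x y v w : V) : f x y v w = f v w x y := by
  rw [h.s13, h.s24]

theorem expand4 (h : K4 f) (c : ℂ) (v w : V) :
    f (v + c • w) (v + c • w) (v + c • w) (v + c • w) =
      f v v v v + c * (2 * f w v v v) + star c * (2 * f v w v v) + c ^ 2 * f w v w v +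
      c * star c * (4 * f v v w w) + star c ^ 2 * f v w v w + c ^ 2 * star c * (2 * f w w w v) +
      c * star c ^ 2 * (2 * f w w v w) + c ^ 2 * star c ^ 2 * f w w w w := by
  simp only [h.add1, h.add2, h.add3, h.add4, h.smul1, h.smul2, h.smul3, h.smul4]
  rw [h.s13 v v w v, h.s24 v v v w, h.swap w w v v, h.s24 v w w v, h.s13 w v v w,
    h.s24 w v w w, h.s13 v w w w]
  ring

theorem expand2 (h : K4 f) (c : ℂ) (v w a b : V) :
    f (v + c • w) (v + c • w) a b =
      f v v a b + c * f w v a b + star c * f v w a b + c * star c * f w w a b := by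
  simp only [h.add1, h.add2, h.smul1, h.smul2]
  ring

theorem avg4 (h : K4 f) (v w : V) :
    f (v + (1 : ℂ) • w) (v + (1 : ℂ) • w) (v + (1 : ℂ) • w) (v + (1 : ℂ) • w) +
    f (v + (-1 : ℂ) • w) (v + (-1 : ℂ) • w) (v + (-1 : ℂ) • w) (v + (-1 : ℂ) • w) +
    f (v + Complex.I • w) (v + Complex.I • w) (v + Complex.I • w) (v + Complex.I • w) +
    f (v + (-Complex.I) • w) (v + (-Complex.I) • w) (v + (-Complex.I) • w) (v + (-Complex.I) • w)
      = 4 * (f v v v v + 4 * f v v w w + f w w w w) := by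
  simp only [h.expand4, star_neg, star_one, Complex.star_def, Complex.conj_I]
  have h2 : Complex.I ^ 2 = -1 := Complex.I_sq
  linear_combination (2 * f w v w v - 8 * f v v w w + 2 * f v w v w +
    2 * (Complex.I ^ 2 - 1) * f w w w w) * h2

theorem avg2 (h : K4 f) (v w a b : V) :
    f (v + (1 : ℂ) • w) (v + (1 : ℂ) • w) a b + f (v + (-1 : ℂ) • w) (v + (-1 : ℂ) • w) a b +
    f (v + Complex.I • w) (v + Complex.I • w) a b +
    f (v + (-Complex.I) • w) (v + (-Complex.I) • w) a b = 4 * (f v v a b + f w w a b) := by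
  simp only [h.expand2, star_neg, star_one, Complex.star_def, Complex.conj_I]
  have h2 : Complex.I ^ 2 = -1 := Complex.I_sq
  linear_combination (-2 * f w w a b) * h2

/-- Royden's inequality with a free vector. -/
theorem royden_aux (h : K4 f) (hH : ∀ v, (f v v v v).re ≤ 0) {ι : Type*} (w : ι → V)
    (s : Finset ι) : ∀ v : V, (f v v v v + 4 * ∑ a ∈ s, f v v (w a) (w a) +
      2 * ∑ a ∈ s, ∑ b ∈ s, f (w a) (w a) (w b) (w b) -
      ∑ a ∈ s, f (w a) (w a) (w a) (w a)).re ≤ 0 := by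
  classical
  induction s using Finset.induction_on with
  | empty => intro v; simpa using hH v
  | insert c s hc ih =>
    intro v
    have e1 := ih (v + (1 : ℂ) • w c)
    have e2 := ih (v + (-1 : ℂ) • w c)
    have e3 := ih (v + Complex.I • w c)
    have e4 := ih (v + (-Complex.I) • w c)
    have a4 := h.avg4 v (w c)
    have a2 : ∑ a ∈ s, f (v + (1 : ℂ) • w c) (v + (1 : ℂ) • w c) (w a) (w a) +
        ∑ a ∈ s, f (v + (-1 : ℂ) • w c) (v + (-1 : ℂ) • w c) (w a) (w a) +
        ∑ a ∈ s, f (v + Complex.I • w c) (v + Complex.I • w c) (w a) (w a) +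
        ∑ a ∈ s, f (v + (-Complex.I) • w c) (v + (-Complex.I) • w c) (w a) (w a) =
        4 * (∑ a ∈ s, f v v (w a) (w a) + ∑ a ∈ s, f (w c) (w c) (w a) (w a)) := by
      rw [← sum_add_distrib, ← sum_add_distrib, ← sum_add_distrib, ← sum_add_distrib, mul_sum]
      exact sum_congr rfl fun a _ => h.avg2 v (w c) (w a) (w a)
    have hs : ∑ a ∈ s, f (w a) (w a) (w c) (w c) = ∑ a ∈ s, f (w c) (w c) (w a) (w a) :=
      sum_congr rfl fun a _ => h.swap _ _ _ _
    simp only [sum_insert hc, sum_add_distrib, hs]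
    set T := ∑ a ∈ s, ∑ b ∈ s, f (w a) (w a) (w b) (w b)
    set U := ∑ a ∈ s, f (w a) (w a) (w a) (w a)
    have key : f v v v v + 4 * (f v v (w c) (w c) + ∑ a ∈ s, f v v (w a) (w a)) +
        2 * (f (w c) (w c) (w c) (w c) + ∑ a ∈ s, f (w c) (w c) (w a) (w a) +
          (∑ a ∈ s, f (w c) (w c) (w a) (w a) + T)) - (f (w c) (w c) (w c) (w c) + U) =
        ((1 / 4 : ℝ) : ℂ) * ((f (v + (1 : ℂ) • w c) (v + (1 : ℂ) • w c) (v + (1 : ℂ) • w c)
          (v + (1 : ℂ) • w c) +
          4 * ∑ a ∈ s, f (v + (1 : ℂ) • w c) (v + (1 : ℂ) • w c) (w a) (w a) + 2 * T - U) +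
        (f (v + (-1 : ℂ) • w c) (v + (-1 : ℂ) • w c) (v + (-1 : ℂ) • w c) (v + (-1 : ℂ) • w c) +
          4 * ∑ a ∈ s, f (v + (-1 : ℂ) • w c) (v + (-1 : ℂ) • w c) (w a) (w a) + 2 * T - U) +
        (f (v + Complex.I • w c) (v + Complex.I • w c) (v + Complex.I • w c)
          (v + Complex.I • w c) +
          4 * ∑ a ∈ s, f (v + Complex.I • w c) (v + Complex.I • w c) (w a) (w a) + 2 * T - U) +
        (f (v + (-Complex.I) • w c) (v + (-Complex.I) • w c) (v + (-Complex.I) • w c)
          (v + (-Complex.I) • w c) +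
          4 * ∑ a ∈ s, f (v + (-Complex.I) • w c) (v + (-Complex.I) • w c) (w a) (w a) +
          2 * T - U)) := by
      push_cast
      linear_combination (-1 / 4 : ℂ) * a4 - a2
    rw [key, Complex.re_ofReal_mul]
    simp only [Complex.add_re] at e1 e2 e3 e4 ⊢
    linarith

/-- Royden's inequality. -/
theorem royden (h : K4 f) (hH : ∀ v, (f v v v v).re ≤ 0) {ι : Type*} [Fintype ι] (w : ι → V) :
    2 * (∑ a, ∑ b, f (w a) (w a) (w b) (w b)).re ≤ ∑ a, (f (w a) (w a) (w a) (w a)).re := by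
  have := h.royden_aux hH w univ 0
  simp only [h.zero1, sum_const_zero, mul_zero, zero_add, Complex.sub_re] at this
  rw [← Complex.re_sum]
  have h2 : (2 * ∑ a, ∑ b, f (w a) (w a) (w b) (w b)).re =
      2 * (∑ a, ∑ b, f (w a) (w a) (w b) (w b)).re := by simp
  linarith

/-- Polarisation: a form of Kaehler type whose quartic vanishes on a subspace vanishes there. -/
theorem polar (h : K4 f) (F : Submodule ℂ V) (h0 : ∀ v ∈ F, f v v v v = 0) {x y z w : V}
    (hx : x ∈ F) (hy : y ∈ F) (hz : z ∈ F) (hw : w ∈ F) : f x y z w = 0 := by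
  have s1 : ∀ x ∈ F, ∀ y ∈ F, f x y x y = 0 := by
    intro x hx y hy
    have g : ∀ c : ℂ, _ := fun c => (h.expand4 c x y).symm.trans
      (h0 _ (F.add_mem hx (F.smul_mem c hy)))
    have g1 := g 1
    have g2 := g (-1)
    have g3 := g Complex.I
    have g4 := g (-Complex.I)
    have g5 := g (1 + Complex.I)
    have g6 := g (-(1 + Complex.I))
    have h2 : Complex.I ^ 2 = -1 := Complex.I_sq
    simp only [h0 x hx, h0 y hy, star_neg, star_one, star_add, Complex.star_def, Complex.conj_I] at g1 g2 g3 g4 g5 g6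
    have k1 : f y x y x + 4 * f x x y y + f x y x y = 0 := by
      linear_combination (1 / 2 : ℂ) * g1 + (1 / 2 : ℂ) * g2
    have k2 : -f y x y x + 4 * f x x y y - f x y x y = 0 := by
      linear_combination (1 / 2 : ℂ) * g3 + (1 / 2 : ℂ) * g4 -
        (f y x y x - 4 * f x x y y + f x y x y) * h2
    have k3 : Complex.I * f y x y x + 4 * f x x y y - Complex.I * f x y x y = 0 := by
      linear_combination (1 / 4 : ℂ) * g5 + (1 / 4 : ℂ) * g6 -
        (1 / 2 : ℂ) * (f y x y x - 4 * f x x y y + f x y x y) * h2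
    linear_combination (1 / 4 : ℂ) * k1 - (1 / 4 : ℂ) * k2 + (Complex.I / 2) * k3 -
      (Complex.I / 4) * k1 - (Complex.I / 4) * k2 - (1 / 2 : ℂ) * (f y x y x - f x y x y) * h2
  have s2 : ∀ x ∈ F, ∀ z ∈ F, ∀ y ∈ F, f x y z y = 0 := by
    intro x hx z hz y hy
    have := s1 _ (F.add_mem hx hz) y hy
    simp only [h.add1, h.add3, s1 x hx y hy, s1 z hz y hy] at this
    rw [h.s13 z y x y] at this
    linear_combination (1 / 2 : ℂ) * this
  have := s2 x hx z hz _ (F.add_mem hy hw)
  simp only [h.add2, h.add4, s2 x hx z hz y hy, s2 x hx z hz w hw] at this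
  rw [h.s24 x w z y] at this
  linear_combination (1 / 2 : ℂ) * this

/-- If a projection is selfadjoint for the last two slots and the form vanishes on its image,
the form vanishes as soon as the third slot lies in the image. -/
theorem kill (h : K4 f) (P : V →ₗ[ℂ] V) (hPP : ∀ v, P (P v) = P v)
    (hP : ∀ x y v w, f x y (P v) w = f x y v (P w))
    (h0 : ∀ v, f (P v) (P v) (P v) (P v) = 0) (x y v w : V) : f x y (P v) w = 0 := by
  have hp : ∀ x y v w, f (P x) (P y) (P v) (P w) = 0 := fun x y v w =>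
    h.polar (LinearMap.range P) (by rintro _ ⟨u, rfl⟩; exact h0 u) ⟨x, rfl⟩ ⟨y, rfl⟩ ⟨v, rfl⟩
      ⟨w, rfl⟩
  have e1 : ∀ x y v w, f x y (P v) w = f x y (P v) (P w) := fun x y v w => by
    rw [← hP x y (P v) w, hPP]
  have hN : P (x - P x) = 0 := by rw [map_sub, hPP, sub_self]
  have hx : x = P x + (x - P x) := by abel
  rw [e1, hx, h.add1]
  have t1 : f (P x) y (P v) (P w) = 0 := by
    rw [h.swap, e1, hp]
  have t2 : f (x - P x) y (P v) (P w) = 0 := by
    rw [h.s13, ← hP, hN, h.zero3]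
  rw [t1, t2, add_zero]

end K4

section matrix

variable {n : Type*} [Fintype n]

/-- The form with four slots given by the components `R k l i j`. -/
def q4 (R : n → n → n → n → ℂ) (x y v w : n → ℂ) : ℂ :=
  ∑ k, ∑ l, ∑ i, ∑ j, x k * star (y l) * v i * star (w j) * R k l i j

/-- The contraction of the components `R k l i j` with two matrices. -/
def q2 (R : n → n → n → n → ℂ) (A B : Matrix n n ℂ) : ℂ :=
  ∑ k, ∑ l, ∑ i, ∑ j, A k l * B i j * R k l i j

theorem k4_q4 {R : n → n → n → n → ℂ} (h13 : ∀ k l i j, R k l i j = R i l k j)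
    (h24 : ∀ k l i j, R k l i j = R k j i l) : K4 (q4 R) where
  add1 x x' y v w := by simp only [q4, Pi.add_apply, add_mul, sum_add_distrib]
  smul1 c x y v w := by simp only [q4, Pi.smul_apply, smul_eq_mul, mul_sum, mul_assoc]
  add2 x y y' v w := by simp only [q4, Pi.add_apply, star_add, add_mul, mul_add, sum_add_distrib]
  smul2 c x y v w := by
    simp only [q4, Pi.smul_apply, smul_eq_mul, mul_sum, star_mul']
    refine sum_congr rfl fun k _ => sum_congr rfl fun l _ => sum_congr rfl fun i _ =>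
      sum_congr rfl fun j _ => by ring
  s13 x y v w := by
    unfold q4
    rw [sum_comm]
    conv_rhs => rw [sum_comm]
    refine sum_congr rfl fun l _ => ?_
    rw [sum_comm]
    refine sum_congr rfl fun k _ => sum_congr rfl fun i _ => sum_congr rfl fun j _ => ?_
    rw [h13 i l k j]; ring
  s24 x y v w := by
    unfold q4
    refine sum_congr rfl fun k _ => ?_
    rw [sum_comm]
    conv_rhs => rw [sum_comm]
    refine sum_congr rfl fun i _ => ?_
    rw [sum_comm]
    refine sum_congr rfl fun j _ => sum_congr rfl fun l _ => ?_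
    rw [h24 k l i j]; ring

/-- With the Hermitian symmetry the quartic is real. -/
theorem q4_star {R : n → n → n → n → ℂ} (hh : ∀ k l i j, star (R k l i j) = R l k j i)
    (x y v w : n → ℂ) : star (q4 R x y v w) = q4 R y x w v := by
  unfold q4
  simp only [star_sum, star_mul', star_star, hh]
  rw [sum_comm]
  refine sum_congr rfl fun l _ => sum_congr rfl fun k _ => ?_
  rw [sum_comm]
  refine sum_congr rfl fun j _ => sum_congr rfl fun i _ => by ring

theorem q4_eq_zero_of_re {R : n → n → n → n → ℂ} (hh : ∀ k l i j, star (R k l i j) = R l k j i)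
    {v : n → ℂ} (h : (q4 R v v v v).re = 0) : q4 R v v v v = 0 := by
  have := q4_star hh v v v v
  apply Complex.ext h
  have h2 := congrArg Complex.im this
  simp only [Complex.star_def, Complex.conj_im] at h2
  simp only [Complex.zero_im]
  linarith

theorem q2_eq_sum {ι κ : Type*} [Fintype ι] [Fintype κ] (R : n → n → n → n → ℂ)
    (w : ι → n → ℂ) (u : κ → n → ℂ) {A B : Matrix n n ℂ}
    (hA : ∀ k l, A k l = ∑ a, w a k * star (w a l))
    (hB : ∀ k l, B k l = ∑ b, u b k * star (u b l)) :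
    q2 R A B = ∑ a, ∑ b, q4 R (w a) (w a) (u b) (u b) := by
  unfold q2 q4
  simp only [hA, hB, sum_mul, mul_sum]
  symm
  calc ∑ a, ∑ b, ∑ k, ∑ l, ∑ i, ∑ j, w a k * star (w a l) * u b i * star (u b j) * R k l i j
      = ∑ p : ι × κ, ∑ q : n × n × n × n, w p.1 q.1 * star (w p.1 q.2.1) * u p.2 q.2.2.1 *
          star (u p.2 q.2.2.2) * R q.1 q.2.1 q.2.2.1 q.2.2.2 := by
        simp only [Fintype.sum_prod_type]
    _ = ∑ q : n × n × n × n, ∑ p : ι × κ, w p.1 q.1 * star (w p.1 q.2.1) * u p.2 q.2.2.1 *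
          star (u p.2 q.2.2.2) * R q.1 q.2.1 q.2.2.1 q.2.2.2 := sum_comm
    _ = _ := by
        simp only [Fintype.sum_prod_type]
        refine sum_congr rfl fun k _ => sum_congr rfl fun l _ => sum_congr rfl fun i _ =>
          sum_congr rfl fun j _ => ?_
        rw [sum_comm]
        refine sum_congr rfl fun a _ => sum_congr rfl fun b _ => by ring

/-- A positive semidefinite matrix is `W * Wᴴ`. -/
theorem psd_eq_mul {A : Matrix n n ℂ} (hA : A.PosSemidef) : ∃ W : Matrix n n ℂ, A = W * Wᴴ := by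
  classical
  obtain ⟨W, hW⟩ := CStarAlgebra.nonneg_iff_eq_mul_star_self.mp hA.nonneg
  exact ⟨W, hW⟩

variable {R : n → n → n → n → ℂ}

/-- Royden's inequality, matrix form with a distinguished vector. -/
theorem royden_vec (h13 : ∀ k l i j, R k l i j = R i l k j)
    (h24 : ∀ k l i j, R k l i j = R k j i l) (hH : ∀ v, (q4 R v v v v).re ≤ 0)
    {A : Matrix n n ℂ} {v : n → ℂ} (hA : (A - vecMulVec v (star v)).PosSemidef) :
    2 * (q2 R A A).re ≤ (q4 R v v v v).re := by
  obtain ⟨W, hW⟩ := psd_eq_mul hA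
  let w : Option n → n → ℂ := fun o => o.elim v fun a k => W k a
  have hw : ∀ k l, A k l = ∑ a, w a k * star (w a l) := by
    intro k l
    have := congrFun (congrFun hW k) l
    simp only [Matrix.sub_apply, vecMulVec_apply, Pi.star_apply, Matrix.mul_apply,
      conjTranspose_apply] at this
    rw [Fintype.sum_option]
    simp only [w, Option.elim]
    rw [← this]; ring
  rw [q2_eq_sum R w w hw hw]
  refine ((k4_q4 h13 h24).royden hH w).trans ?_
  rw [Fintype.sum_option]
  have : ∑ a : n, (q4 R (w (some a)) (w (some a)) (w (some a)) (w (some a))).re ≤ 0 :=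
    sum_nonpos fun a _ => hH _
  simp only [w, Option.elim] at this ⊢
  linarith

/-- Royden's inequality, matrix form. -/
theorem royden_mat (h13 : ∀ k l i j, R k l i j = R i l k j)
    (h24 : ∀ k l i j, R k l i j = R k j i l) (hH : ∀ v, (q4 R v v v v).re ≤ 0)
    {A : Matrix n n ℂ} (hA : A.PosSemidef) : (q2 R A A).re ≤ 0 := by
  have h0 : (A - vecMulVec (0 : n → ℂ) (star 0)).PosSemidef := by simpa using hA
  have := royden_vec h13 h24 hH h0
  have := hH 0
  linarith

/-- Cauchy-Schwarz for a positive semidefinite matrix. -/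
theorem psd_cs {A : Matrix n n ℂ} (hA : A.PosSemidef) (x y : n → ℂ) :
    ‖star x ⬝ᵥ (A *ᵥ y)‖ ^ 2 ≤ (star x ⬝ᵥ (A *ᵥ x)).re * (star y ⬝ᵥ (A *ᵥ y)).re := by
  obtain ⟨W, rfl⟩ := psd_eq_mul hA
  have e : ∀ x y : n → ℂ, star x ⬝ᵥ ((W * Wᴴ) *ᵥ y) =
      inner ℂ (WithLp.toLp 2 (Wᴴ *ᵥ x) : EuclideanSpace ℂ n) (WithLp.toLp 2 (Wᴴ *ᵥ y)) := by
    intro x y
    rw [EuclideanSpace.inner_toLp_toLp, ← mulVec_mulVec, dotProduct_mulVec, star_mulVec,
      conjTranspose_conjTranspose, dotProduct_comm]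
  rw [e, e, e]
  have h1 := inner_self_eq_norm_sq (𝕜 := ℂ) (WithLp.toLp 2 (Wᴴ *ᵥ x) : EuclideanSpace ℂ n)
  have h2 := inner_self_eq_norm_sq (𝕜 := ℂ) (WithLp.toLp 2 (Wᴴ *ᵥ y) : EuclideanSpace ℂ n)
  simp only [RCLike.re_to_complex] at h1 h2
  rw [h1, h2, ← mul_pow]
  exact pow_le_pow_left₀ (norm_nonneg _) (norm_inner_le_norm _ _) 2

/-- The equality case of Royden's inequality: the quartic vanishes on the image of `A`. -/
theorem royden_zero (h13 : ∀ k l i j, R k l i j = R i l k j)
    (h24 : ∀ k l i j, R k l i j = R k j i l) (hH : ∀ v, (q4 R v v v v).re ≤ 0)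
    {A : Matrix n n ℂ} (hA : A.PosSemidef) (h0 : 0 ≤ (q2 R A A).re) (y : n → ℂ) :
    (q4 R (A *ᵥ y) (A *ᵥ y) (A *ᵥ y) (A *ᵥ y)).re = 0 := by
  set t : ℝ := (star y ⬝ᵥ (A *ᵥ y)).re with ht
  have ht0 : 0 ≤ t := hA.re_dotProduct_nonneg y
  set c : ℝ := (Real.sqrt (t + 1))⁻¹ with hc
  have hc0 : 0 < c := inv_pos.mpr (Real.sqrt_pos.mpr (by linarith))
  have hc2 : c ^ 2 * (t + 1) = 1 := by
    rw [hc, inv_pow, Real.sq_sqrt (by linarith)]; field_simp
  have hP : (A - vecMulVec ((c : ℂ) • (A *ᵥ y)) (star ((c : ℂ) • (A *ᵥ y)))).PosSemidef := by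
    refine PosSemidef.of_dotProduct_mulVec_nonneg
      (hA.1.sub (posSemidef_vecMulVec_self_star _).1) fun x => ?_
    have e1 : star x ⬝ᵥ (vecMulVec ((c : ℂ) • (A *ᵥ y)) (star ((c : ℂ) • (A *ᵥ y))) *ᵥ x) =
        ((c ^ 2 * ‖star x ⬝ᵥ (A *ᵥ y)‖ ^ 2 : ℝ) : ℂ) := by
      rw [vecMulVec_mulVec, op_smul_eq_smul, dotProduct_smul, dotProduct_smul, star_smul,
        smul_dotProduct]
      have : star (A *ᵥ y) ⬝ᵥ x = star (star x ⬝ᵥ (A *ᵥ y)) := by
        rw [← star_dotProduct_star, star_star, dotProduct_comm]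
      rw [this]
      simp only [smul_eq_mul, Complex.star_def, Complex.conj_ofReal]
      push_cast
      rw [← Complex.conj_mul' ]
      ring
    rw [sub_mulVec, dotProduct_sub, e1]
    have h1 := hA.dotProduct_mulVec_nonneg x
    have h2 := psd_cs hA x y
    rw [Complex.le_def] at h1 ⊢
    simp only [Complex.zero_re, Complex.zero_im, Complex.sub_re, Complex.sub_im,
      Complex.ofReal_re, Complex.ofReal_im, sub_zero] at h1 ⊢
    refine ⟨?_, h1.2⟩
    rw [← ht] at h2
    nlinarith [h1.1, sq_nonneg c, mul_nonneg (sq_nonneg c) h1.1]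
  have h1 := royden_vec h13 h24 hH hP
  have k := k4_q4 h13 h24
  rw [k.smul1, k.smul2, k.smul3, k.smul4] at h1
  simp only [Complex.star_def, Complex.conj_ofReal, Complex.re_ofReal_mul] at h1
  have h2 := hH (A *ᵥ y)
  have h3 : 0 < c * (c * (c * c)) := by positivity
  by_contra hne
  have h4 : (q4 R (A *ᵥ y) (A *ᵥ y) (A *ᵥ y) (A *ᵥ y)).re < 0 := lt_of_le_of_ne h2 hne
  nlinarith [mul_neg_of_pos_of_neg h3 h4]

end matrix

end Pool.Agent.Lib.HS76
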