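import Pool.Agent.Lib.SV.Hol85

/-! Holomorphic functions extend across closed sets of Hausdorff codimension more than two. -/

open scoped Topology ENNReal
open Set Filter Metric

noncomputable section

namespace Pool.Agent.Lib.HS76

open Pool.Agent.Lib.SV

theorem dense_of_dim {k : ℕ} {A : Set (Fin (k + 1) → ℂ)} (hA : dimH A + 2 < 2 * ((k + 1 : ℕ) : ℝ≥0∞))
    {B : Set (Fin k → ℂ)} (hB : dimH B ≤ dimH A) : Dense Bᶜ := by
  refine dense_compl_of_dimH_lt_finrank (hB.trans_lt ?_)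
  have e : Module.finrank ℝ (Fin k → ℂ) = 2 * k := by
    rw [Module.finrank_pi_fintype]; simp [mul_comm]
  rw [e]
  push_cast at hA ⊢
  rw [mul_add, mul_one] at hA
  exact (ENNReal.add_lt_add_iff_right (by simp)).1 hA

/-- A direction such that the line through `p` and a dense set of parallel lines miss `A`. -/
theorem exists_dir {n : ℕ} {A : Set (Fin n → ℂ)} (hA : dimH A + 2 < 2 * (n : ℝ≥0∞))
    (p : Fin n → ℂ) : ∃ v : Fin n → ℂ, (∀ t : ℂ, t ≠ 0 → p + t • v ∉ A) ∧
      Dense {z | ∀ t : ℂ, z + t • v ∉ A} := by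
  rcases n with _ | k
  · simp at hA
  let π : (Fin (k + 1) → ℂ) → Fin k → ℂ := fun z j => (z j.succ - p j.succ) / (z 0 - p 0)
  have h1 : dimH (π '' (A ∩ {z | z 0 ≠ p 0})) ≤ dimH A := by
    refine (dimH_image_le_of_locally_lipschitzOn fun x hx => ?_).trans (dimH_mono inter_subset_left)
    have : ContDiffAt ℂ 1 π x := contDiffAt_pi.2 fun j =>
      ContDiffAt.div (by fun_prop) (by fun_prop) (sub_ne_zero.2 hx.2)
    obtain ⟨K, t, ht, hK⟩ := this.exists_lipschitzOnWith
    exact ⟨K, t, mem_nhdsWithin_of_mem_nhds ht, hK⟩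
  obtain ⟨w, hw⟩ := (dense_of_dim hA h1).nonempty
  let q : (Fin (k + 1) → ℂ) →L[ℂ] Fin k → ℂ := ContinuousLinearMap.pi fun j =>
    ContinuousLinearMap.proj j.succ - w j • ContinuousLinearMap.proj 0
  have hq : ∀ z j, q z j = z j.succ - w j * z 0 := fun z j => by simp [q]
  have h2 : Function.Surjective q := fun y => ⟨Fin.cons 0 y, funext fun j => by simp [hq]⟩
  refine ⟨Fin.cons 1 w, fun t ht h => hw ⟨_, ⟨h, ?_⟩, ?_⟩, ?_⟩
  · simpa using ht
  · funext j
    simp [π, ht]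
  · refine ((dense_of_dim hA (q.lipschitz.dimH_image_le A)).preimage (q.isOpenMap h2)).mono ?_
    refine fun z hz t h => hz ⟨_, h, funext fun j => ?_⟩
    simp only [hq, Pi.add_apply, Pi.smul_apply, Fin.cons_succ, Fin.cons_zero, smul_eq_mul]
    ring

theorem dense_compl {n : ℕ} {A : Set (Fin n → ℂ)} (hA : dimH A + 2 < 2 * (n : ℝ≥0∞)) :
    Dense Aᶜ := by
  obtain ⟨v, -, h⟩ := exists_dir hA 0
  exact h.mono fun z hz => by simpa using hz 0

/-- Local extension across a thin set. -/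
theorem ext_loc {n : ℕ} {U A : Set (Fin n → ℂ)} {g : (Fin n → ℂ) → ℂ} {p : Fin n → ℂ}
    (hU : IsOpen U) (hO : IsOpen (U \ A)) (hA : dimH A + 2 < 2 * (n : ℝ≥0∞))
    (hg : DifferentiableOn ℂ g (U \ A)) (hp : p ∈ U) :
    ∃ G : (Fin n → ℂ) → ℂ, ∀ᶠ z in 𝓝 p, DifferentiableAt ℂ G z ∧ (z ∉ A → G z = g z) := by
  obtain ⟨v, hv, hd⟩ := exists_dir hA p
  have hL : Continuous fun t : ℂ => p + t • v := by fun_prop
  obtain ⟨ρ, hρ, hb⟩ : ∃ ρ > 0, closedBall (0 : ℂ) ρ ⊆ (fun t : ℂ => p + t • v) ⁻¹' U :=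
    nhds_basis_closedBall.mem_iff.1 ((hU.preimage hL).mem_nhds (by simpa using hp))
  obtain ⟨δ₁, hδ₁, h1⟩ := ((isCompact_closedBall (0 : ℂ) ρ).image hL).exists_cthickening_subset_open
    hU (image_subset_iff.2 hb)
  have hC := (isCompact_sphere (0 : ℂ) ρ).image hL
  obtain ⟨δ₂, hδ₂, h2⟩ := hC.exists_cthickening_subset_open hO (by
    rintro _ ⟨t, ht, rfl⟩
    exact ⟨hb (sphere_subset_closedBall ht), hv t (ne_of_mem_sphere ht hρ.ne')⟩)
  obtain ⟨B, hB⟩ := (hC.cthickening (r := δ₂)).exists_bound_of_continuousOn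
    ((H85.continuousOn_fderiv hO hg).mono h2)
  have hm : ∀ (δ : ℝ) (S : Set ℂ), ∀ z ∈ ball p δ, ∀ t ∈ S,
      z + t • v ∈ cthickening δ ((fun t : ℂ => p + t • v) '' S) := fun δ S z hz t ht =>
    mem_cthickening_of_dist_le _ (p + t • v) _ _ ⟨t, ht, rfl⟩ (by
      rw [dist_add_right]; exact (mem_ball.1 hz).le)
  have hc : ∀ θ, circleMap 0 ρ θ ∈ sphere (0 : ℂ) ρ := fun θ => circleMap_mem_sphere 0 hρ.le θ
  let G : (Fin n → ℂ) → ℂ := fun z => Real.circleAverage (fun t => g (z + t • v)) 0 ρ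
  have hG : ∀ z ∈ ball p δ₂, DifferentiableAt ℂ G z := by
    intro z hz
    have hcm : ∀ y : Fin n → ℂ, Continuous fun θ => y + circleMap 0 ρ θ • v := fun y => by fun_prop
    have c0 : ∀ y ∈ ball p δ₂, Continuous fun θ => g (y + circleMap 0 ρ θ • v) := fun y hy =>
      hg.continuousOn.comp_continuous (hcm y) fun θ => h2 (hm _ _ y hy _ (hc θ))
    have c1 : Continuous fun θ => fderiv ℂ g (z + circleMap 0 ρ θ • v) :=
      (H85.continuousOn_fderiv hO hg).comp_continuous (hcm z) fun θ => h2 (hm _ _ z hz _ (hc θ))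
    have := intervalIntegral.hasFDerivAt_integral_of_dominated_of_fderiv_le (𝕜 := ℂ)
      (μ := MeasureTheory.volume) (a := 0) (b := 2 * Real.pi) (bound := fun _ => B)
      (F := fun y θ => g (y + circleMap 0 ρ θ • v))
      (F' := fun y θ => fderiv ℂ g (y + circleMap 0 ρ θ • v)) (isOpen_ball.mem_nhds hz)
      ((show ∀ᶠ y in 𝓝 z, y ∈ ball p δ₂ from isOpen_ball.mem_nhds hz).mono
        fun y hy => (c0 y hy).aestronglyMeasurable)
      ((c0 z hz).intervalIntegrable _ _) c1.aestronglyMeasurable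
      (Eventually.of_forall fun θ _ y hy => hB _ (hm _ _ y hy _ (hc θ)))
      intervalIntegrable_const
      (Eventually.of_forall fun θ _ y hy => by
        have := (hg.differentiableAt (hO.mem_nhds (h2 (hm _ _ y hy _ (hc θ))))).hasFDerivAt
        exact (hasFDerivAt_comp_add_right _).2 this)
    exact this.differentiableAt.const_smul (2 * Real.pi)⁻¹
  set W := ball p (min δ₁ δ₂) ∩ (U \ A) with hW
  have hsub1 : ball p (min δ₁ δ₂) ⊆ ball p δ₁ := ball_subset_ball (min_le_left _ _)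
  have hsub2 : ball p (min δ₁ δ₂) ⊆ ball p δ₂ := ball_subset_ball (min_le_right _ _)
  have heq : EqOn G g W := by
    refine EqOn.of_subset_closure (s := W ∩ {z | ∀ t : ℂ, z + t • v ∉ A}) (fun z hz => ?_)
      (fun z hz => (hG z (hsub2 hz.1)).continuousAt.continuousWithinAt)
      (hg.continuousOn.mono inter_subset_right) inter_subset_left
      (hd.open_subset_closure_inter (isOpen_ball.inter hO))
    have : DiffContOnCl ℂ (fun t : ℂ => g (z + t • v)) (ball 0 |ρ|) := by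
      refine DifferentiableOn.diffContOnCl ?_
      rw [abs_of_pos hρ, closure_ball _ hρ.ne']
      exact hg.comp (by fun_prop) fun t ht => ⟨h1 (hm _ _ z (hsub1 hz.1.1) t ht), hz.2 t⟩
    simpa using this.circleAverage
  refine ⟨G, ?_⟩
  filter_upwards [ball_mem_nhds p (lt_min hδ₁ hδ₂), hU.mem_nhds hp] with z hz hzU
  exact ⟨hG z (hsub2 hz), fun h => heq ⟨hz, hzU, h⟩⟩

/-- The Jacobian determinant of a holomorphic map is holomorphic. -/
theorem det_diff {n : ℕ} {T : (Fin n → ℂ) → Fin n → ℂ} {z : Fin n → ℂ}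
    (h : ∀ᶠ w in 𝓝 z, DifferentiableAt ℂ T w) :
    DifferentiableAt ℂ (fun w => (fderiv ℂ T w).det) z := by
  obtain ⟨O, h1, hO, hz⟩ := _root_.eventually_nhds_iff.1 h
  have h2 := (H85.differentiableOn_fderiv hO fun w hw =>
    (h1 w hw).differentiableWithinAt).differentiableAt (hO.mem_nhds hz)
  have e : (fun w => (fderiv ℂ T w).det) = fun w =>
      ∑ σ : Equiv.Perm (Fin n), ((Equiv.Perm.sign σ : ℤ) : ℂ) *
        ∏ i, fderiv ℂ T w (Pi.single i 1) (σ i) := by
    funext w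
    rw [ContinuousLinearMap.det, ← LinearMap.det_toMatrix', Matrix.det_apply']
    simp [LinearMap.toMatrix'_apply]
  rw [e]
  refine DifferentiableAt.fun_sum fun σ _ => DifferentiableAt.const_mul ?_ _
  exact (HasFDerivAt.finsetProd (g := fun i w => fderiv ℂ T w (Pi.single i 1) (σ i))
    fun i _ => (differentiableAt_pi.1 (h2.clm_apply (differentiableAt_const (Pi.single i 1)))
      (σ i)).hasFDerivAt).differentiableAt

end Pool.Agent.Lib.HS76
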