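import Pool.Agent.Lib.HS76.PDefs
import Pool.Agent.Lib.HS76.Ext

/-! Pull-back of pluricanonical forms by a map that is holomorphic outside a thin set. -/

open scoped Topology Manifold ContDiff Classical
open Set Filter

noncomputable section

namespace Pool.Agent.Lib.HS76

open Pool.Agent.Lib.SV

variable {n : ℕ}

theorem det_comp {φ g h : E n → E n} {z : E n} (e : φ =ᶠ[𝓝 z] g ∘ h)
    (hg : DifferentiableAt ℂ g (h z)) (hh : DifferentiableAt ℂ h z) :
    DifferentiableAt ℂ φ z ∧
      (fderiv ℂ φ z).det = (fderiv ℂ g (h z)).det * (fderiv ℂ h z).det := by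
  refine ⟨(hg.comp z hh).congr_of_eventuallyEq e, ?_⟩
  rw [e.fderiv_eq, fderiv_comp z hg hh]
  exact LinearMap.det_comp _ _

variable {X : Type} [TopologicalSpace X] [ChartedSpace (E n) X]

theorem ev_src {x : X} {z : E n} (hz : z ∈ (chartAt (E n) x).target) {p : X → Prop}
    (hp : ∀ᶠ y in 𝓝 ((chartAt (E n) x).symm z), p y) :
    ∀ᶠ w in 𝓝 z, w ∈ (chartAt (E n) x).target ∧ p ((chartAt (E n) x).symm w) :=
  (show ∀ᶠ w in 𝓝 z, w ∈ (chartAt (E n) x).target from
    (chartAt (E n) x).open_target.mem_nhds hz).and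
    (((chartAt (E n) x).continuousAt_symm hz).eventually hp)

theorem chart_diff [IsManifold 𝓘(ℂ, E n) ω X] {x y : X} {z : E n}
    (hz : z ∈ (chartAt (E n) x).target) (hy : (chartAt (E n) x).symm z ∈ (chartAt (E n) y).source) :
    DifferentiableAt ℂ (chartAt (E n) y ∘ (chartAt (E n) x).symm) z := by
  have h := (contDiffGroupoid ω 𝓘(ℂ, E n)).compatible (chart_mem_atlas (E n) x)
    (chart_mem_atlas (E n) y)
  rw [contDiffGroupoid, mem_groupoid_of_pregroupoid] at h
  have h1 := h.1
  simp only [contDiffPregroupoid, modelWithCornersSelf_coe, modelWithCornersSelf_coe_symm,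
    Function.comp_id, Function.id_comp, preimage_id, range_id, inter_univ] at h1
  exact (h1.differentiableOn (by simp)).differentiableAt
    (((chartAt (E n) x).isOpen_inter_preimage_symm (chartAt (E n) y).open_source).mem_nhds
      ⟨hz, hy⟩)

theorem chart_ev [IsManifold 𝓘(ℂ, E n) ω X] {x y : X} {z : E n}
    (hz : z ∈ (chartAt (E n) x).target) (hy : (chartAt (E n) x).symm z ∈ (chartAt (E n) y).source) :
    ∀ᶠ w in 𝓝 z, DifferentiableAt ℂ (chartAt (E n) y ∘ (chartAt (E n) x).symm) w :=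
  (ev_src hz (p := fun a => a ∈ (chartAt (E n) y).source)
    ((chartAt (E n) y).open_source.mem_nhds hy)).mono fun _ h => chart_diff h.1 h.2

/-- The coefficient in the chart at `x`. -/
def loc (m : ℕ) (σ : X → ℂ) (x : X) (z : E n) : ℂ :=
  σ ((chartAt (E n) x).symm z) * jacAt n X x z ^ m

theorem loc_change [IsManifold 𝓘(ℂ, E n) ω X] (m : ℕ) (σ : X → ℂ) {x y : X} {z : E n}
    (hz : z ∈ (chartAt (E n) x).target) (hy : (chartAt (E n) x).symm z ∈ (chartAt (E n) y).source) :
    loc m σ x z = loc m σ y (chartAt (E n) y ((chartAt (E n) x).symm z)) *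
      (fderiv ℂ (chartAt (E n) y ∘ (chartAt (E n) x).symm) z).det ^ m := by
  have e0 := (chartAt (E n) y).left_inv hy
  rw [loc, loc, jacAt, jacAt, e0, mul_assoc, ← mul_pow]
  congr 2
  refine (det_comp (g := chartAt (E n) ((chartAt (E n) x).symm z) ∘ (chartAt (E n) y).symm)
    (h := chartAt (E n) y ∘ (chartAt (E n) x).symm) ?_ ?_ (chart_diff hz hy)).2
  · filter_upwards [ev_src hz (p := fun a => a ∈ (chartAt (E n) y).source)
      ((chartAt (E n) y).open_source.mem_nhds hy)] with w hw
    simp only [Function.comp, (chartAt (E n) y).left_inv hw.2]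
  · exact chart_diff ((chartAt (E n) y).map_source hy) (by
      rw [Function.comp, e0]; exact mem_chart_source _ _)

theorem loc_diff [IsManifold 𝓘(ℂ, E n) ω X] {m : ℕ} {σ : X → ℂ} {x : X} {z : E n}
    (hz : z ∈ (chartAt (E n) x).target)
    (h : DifferentiableAt ℂ (loc m σ ((chartAt (E n) x).symm z))
      (chartAt (E n) ((chartAt (E n) x).symm z) ((chartAt (E n) x).symm z))) :
    DifferentiableAt ℂ (loc (n := n) m σ x) z := by
  have hy := mem_chart_source (E n) ((chartAt (E n) x).symm z)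
  refine ((h.comp z (chart_diff hz hy)).mul ((det_diff (chart_ev hz hy)).pow m)).congr_of_eventuallyEq
    ?_
  filter_upwards [ev_src hz (p := fun a => a ∈ (chartAt (E n) _).source)
    ((chartAt (E n) _).open_source.mem_nhds hy)] with w hw
  exact loc_change m σ hw.1 hw.2

theorem mem_img {Z : Set X} {x : X} {z : E n} (hz : z ∈ (chartAt (E n) x).target) :
    z ∈ chartAt (E n) x '' (Z ∩ (chartAt (E n) x).source) ↔ (chartAt (E n) x).symm z ∈ Z := by
  refine ⟨?_, fun h => ⟨_, ⟨h, (chartAt (E n) x).map_target hz⟩, (chartAt (E n) x).right_inv hz⟩⟩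
  rintro ⟨y, hy, rfl⟩
  rw [(chartAt (E n) x).left_inv hy.2]
  exact hy.1

/-- Pluricanonical forms extend across thin sets. -/
theorem pluri_ext [IsManifold 𝓘(ℂ, E n) ω X] {Z : Set X} (hZ : Thin n Z) {m : ℕ} {σ : X → ℂ}
    (hσ : ∀ y ∉ Z, DifferentiableAt ℂ (loc m σ y) (chartAt (E n) y y)) :
    ∃ s ∈ Pluri n X m, ∀ y ∉ Z, s y = σ y := by
  have key : ∀ x ∈ Z, ∃ G : E n → ℂ, ∀ᶠ z in 𝓝 (chartAt (E n) x x), DifferentiableAt ℂ G z ∧
      (z ∉ chartAt (E n) x '' (Z ∩ (chartAt (E n) x).source) → G z = loc m σ x z) := by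
    intro x hx
    refine ext_loc (chartAt (E n) x).open_target ?_ (hZ.2 x hx)
      (fun z hz => (loc_diff hz.1 (hσ _ fun h => hz.2 ((mem_img hz.1).2 h))).differentiableWithinAt)
      (mem_chart_target _ x)
    have e : (chartAt (E n) x).target \ chartAt (E n) x '' (Z ∩ (chartAt (E n) x).source) =
        (chartAt (E n) x).target ∩ (chartAt (E n) x).symm ⁻¹' Zᶜ :=
      Set.ext fun z => and_congr_right fun hz => not_congr (mem_img hz)
    rw [e]
    exact (chartAt (E n) x).isOpen_inter_preimage_symm hZ.1.isOpen_compl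
  choose! G hG using key
  let s : X → ℂ := fun x => if x ∈ Z then G x (chartAt (E n) x x) else σ x
  have hs : ∀ y ∉ Z, s y = σ y := fun y hy => if_neg hy
  refine ⟨s, fun x => ?_, hs⟩
  change DifferentiableAt ℂ (loc m s x) _
  have hx0 := mem_chart_target (E n) x
  have hxs := (chartAt (E n) x).left_inv (mem_chart_source (E n) x)
  by_cases hx : x ∈ Z
  swap
  · refine (hσ x hx).congr_of_eventuallyEq ?_
    filter_upwards [ev_src hx0 (p := fun a => a ∉ Z)
      (by rw [hxs]; exact hZ.1.isOpen_compl.mem_nhds hx)] with w hw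
    simp only [loc, hs _ hw.2]
  refine (hG x hx).self_of_nhds.1.congr_of_eventuallyEq ?_
  filter_upwards [(hG x hx).eventually_nhds, (chartAt (E n) x).open_target.mem_nhds hx0]
    with z hz hzt
  by_cases hy : (chartAt (E n) x).symm z ∈ Z
  swap
  · rw [hz.self_of_nhds.2 fun h => hy ((mem_img hzt).1 h)]
    simp only [loc, hs _ hy]
  set y := (chartAt (E n) x).symm z with hyd
  have hys := mem_chart_source (E n) y
  have hT := chart_diff hzt hys
  have c1 : ContinuousAt (fun w => G y (chartAt (E n) y ((chartAt (E n) x).symm w)) *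
      (fderiv ℂ (chartAt (E n) y ∘ (chartAt (E n) x).symm) w).det ^ m) z :=
    (((hG y hy).self_of_nhds.1.comp z hT).mul ((det_diff (chart_ev hzt hys)).pow m)).continuousAt
  have e1 : loc m s x z = G y (chartAt (E n) y y) *
      (fderiv ℂ (chartAt (E n) y ∘ (chartAt (E n) x).symm) z).det ^ m := by
    simp only [loc, jacAt, s, ← hyd, if_pos hy]
  rw [e1]
  refine tendsto_nhds_unique_of_frequently_eq c1 hz.self_of_nhds.1.continuousAt ?_
  refine ((mem_closure_iff_frequently.1 (dense_compl (hZ.2 x hx) z)).and_eventually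
    (hz.and ((hT.continuousAt.eventually (hG y hy)).and (ev_src hzt
      (p := fun a => a ∈ (chartAt (E n) y).source)
      ((chartAt (E n) y).open_source.mem_nhds hys))))).mono ?_
  rintro w ⟨h1, h2, h3, h4, h5⟩
  rw [h2.2 h1, loc_change m σ h4 h5]
  refine congrArg (fun a => a * _) (h3.2 fun h => h1 ((mem_img h4).2 ?_))
  have := (mem_img ((chartAt (E n) y).map_source h5)).1 h
  rwa [(chartAt (E n) y).left_inv h5] at this

variable {Y : Type} [TopologicalSpace Y] [ChartedSpace (E n) Y]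

theorem pull_at [IsManifold 𝓘(ℂ, E n) ω X] [IsManifold 𝓘(ℂ, E n) ω Y] {f : X → Y} {x : X} {z : E n}
    (hz : z ∈ (chartAt (E n) x).target) (hf : HolAt n f ((chartAt (E n) x).symm z))
    (hb : f ((chartAt (E n) x).symm z) ∈ (chartAt (E n) (f x)).source) :
    DifferentiableAt ℂ (inCharts n f x) z ∧ jacOf n f ((chartAt (E n) x).symm z) * jacAt n X x z =
      jacAt n Y (f x) (inCharts n f x z) * (fderiv ℂ (inCharts n f x) z).det := by
  set y := (chartAt (E n) x).symm z with hy
  have hys := mem_chart_source (E n) y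
  have hfs := mem_chart_source (E n) (f y)
  have e0 : (chartAt (E n) (f x)).symm (inCharts n f x z) = f y := (chartAt (E n) (f x)).left_inv hb
  have h1 := det_comp (φ := chartAt (E n) (f y) ∘ f ∘ (chartAt (E n) x).symm) (g := inCharts n f y)
    (h := chartAt (E n) y ∘ (chartAt (E n) x).symm) (by
      filter_upwards [ev_src hz (p := fun a => a ∈ (chartAt (E n) y).source)
        ((chartAt (E n) y).open_source.mem_nhds hys)] with w hw
      simp only [inCharts, Function.comp, (chartAt (E n) y).left_inv hw.2]) hf.2 (chart_diff hz hys)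
  have h2 := det_comp (φ := inCharts n f x) (g := chartAt (E n) (f x) ∘ (chartAt (E n) (f y)).symm)
    (h := chartAt (E n) (f y) ∘ f ∘ (chartAt (E n) x).symm) (by
      filter_upwards [ev_src hz (p := fun a => f a ∈ (chartAt (E n) (f y)).source)
        (hf.1.eventually ((chartAt (E n) (f y)).open_source.mem_nhds hfs))] with w hw
      simp only [inCharts, Function.comp, (chartAt (E n) (f y)).left_inv hw.2])
    (chart_diff ((chartAt (E n) (f y)).map_source hfs) (by
      rw [Function.comp, Function.comp, (chartAt (E n) (f y)).left_inv hfs]; exact hb)) h1.1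
  have h3 := det_comp (φ := chartAt (E n) (f y) ∘ f ∘ (chartAt (E n) x).symm)
    (g := chartAt (E n) (f y) ∘ (chartAt (E n) (f x)).symm) (h := inCharts n f x) (by
      filter_upwards [ev_src hz (p := fun a => f a ∈ (chartAt (E n) (f x)).source)
        (hf.1.eventually ((chartAt (E n) (f x)).open_source.mem_nhds hb))] with w hw
      simp only [inCharts, Function.comp, (chartAt (E n) (f x)).left_inv hw.2])
    (chart_diff ((chartAt (E n) (f x)).map_source hb) (by rw [e0]; exact hfs)) h2.1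
  refine ⟨h2.1, ?_⟩
  rw [jacAt, jacAt, e0, ← h3.2, h1.2]
  rfl

/-- The pull-back of a pluricanonical form. -/
theorem pull [IsManifold 𝓘(ℂ, E n) ω X] [IsManifold 𝓘(ℂ, E n) ω Y] {Z : Set X} (hZ : Thin n Z)
    {f : X → Y} (hf : ∀ x ∉ Z, HolAt n f x) {m : ℕ} {t : Y → ℂ} (ht : t ∈ Pluri n Y m) :
    ∃ s ∈ Pluri n X m, ∀ x ∉ Z, s x = t (f x) * jacOf n f x ^ m := by
  refine pluri_ext hZ fun x hx => ?_
  have hx0 := mem_chart_target (E n) x
  have hxs := (chartAt (E n) x).left_inv (mem_chart_source (E n) x)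
  have hev := ev_src hx0 (p := fun a => a ∉ Z ∧ f a ∈ (chartAt (E n) (f x)).source) (by
    rw [hxs]
    exact (show ∀ᶠ a in 𝓝 x, a ∉ Z from hZ.1.isOpen_compl.mem_nhds hx).and
      ((hf x hx).1.eventually ((chartAt (E n) (f x)).open_source.mem_nhds (mem_chart_source _ _))))
  have h1 := hev.mono fun w hw => pull_at hw.1 (hf _ hw.2.1) hw.2.2
  have h2 : DifferentiableAt ℂ (loc m t (f x)) (inCharts n f x (chartAt (E n) x x)) := by
    simp only [inCharts, Function.comp, hxs]
    exact ht (f x)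
  refine ((h2.comp _ (hf x hx).2).mul
    ((det_diff (h1.mono fun w hw => hw.1)).pow m)).congr_of_eventuallyEq ?_
  filter_upwards [hev, h1] with w hw hw'
  have e0 : (chartAt (E n) (f x)).symm (inCharts n f x w) = f ((chartAt (E n) x).symm w) :=
    (chartAt (E n) (f x)).left_inv hw.2.2
  simp only [loc, Pi.mul_apply, Pi.pow_apply, Function.comp, e0, mul_assoc, ← mul_pow, hw'.2]

/-- Non-vanishing passes from the target to the source of a generically finite map. -/
theorem nonvan [IsManifold 𝓘(ℂ, E n) ω X] [IsManifold 𝓘(ℂ, E n) ω Y]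
    (hY : ∃ m : ℕ, 0 < m ∧ ∀ y : Y, ∃ t ∈ Pluri n Y m, t y ≠ 0) {Z : Set X} (hZ : Thin n Z)
    {f : X → Y} (hf : ∀ x ∉ Z, HolAt n f x) (h0 : ∃ x ∉ Z, jacOf n f x ≠ 0) :
    ∃ m : ℕ, 0 < m ∧ ∃ s ∈ Pluri n X m, s ≠ 0 := by
  obtain ⟨m, hm, hY⟩ := hY
  obtain ⟨x, hx, hj⟩ := h0
  obtain ⟨t, ht, ht0⟩ := hY (f x)
  obtain ⟨s, hs, e⟩ := pull hZ hf ht
  refine ⟨m, hm, s, hs, fun h => ?_⟩
  have := e x hx
  rw [h] at this
  exact mul_ne_zero ht0 (pow_ne_zero m hj) this.symm

end Pool.Agent.Lib.HS76
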