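import Pool.Agent.Lib.HS.SDefs

/-! Definitions used in the statement: holomorphic maps read in charts, thin closed sets. -/

noncomputable section

namespace Pool.Agent.Lib.HS76

open Pool.Agent.Lib.SV

variable (n : ℕ) {X Y : Type} [TopologicalSpace X] [ChartedSpace (E n) X] [TopologicalSpace Y]
  [ChartedSpace (E n) Y]

/-- The map `f` read in the preferred charts of `x` and of `f x`. -/
def inCharts (f : X → Y) (x : X) : E n → E n := chartAt (E n) (f x) ∘ f ∘ (chartAt (E n) x).symm

/-- `f` is continuous and complex differentiable at `x`. -/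
def HolAt (f : X → Y) (x : X) : Prop :=
  ContinuousAt f x ∧ DifferentiableAt ℂ (inCharts n f x) (chartAt (E n) x x)

/-- The Jacobian determinant of `f` at `x`, in the preferred charts of `x` and of `f x`. -/
def jacOf (f : X → Y) (x : X) : ℂ := (fderiv ℂ (inCharts n f x) (chartAt (E n) x x)).det

/-- `Z` is closed and has Hausdorff dimension less than `2 n - 2` in the chart at each of its
points. -/
def Thin (Z : Set X) : Prop :=
  IsClosed Z ∧ ∀ x ∈ Z, dimH (chartAt (E n) x '' (Z ∩ (chartAt (E n) x).source)) + 2 < 2 * n

end Pool.Agent.Lib.HS76
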